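import Pool.Agent.Run7.h157.EU.Defs

set_option autoImplicit false

namespace Run7.h157.EU

open Filter Topology

lemma abel (f : ℕ → ℝ) (C : Set ℕ) (n : ℕ) : ∑ i ∈ Finset.range n, C.indicator f i =
    ∑ i ∈ Finset.range n, (f i - f (i + 1)) * ((C ∩ Set.Iio (i + 1)).ncard : ℝ) +
      f n * ((C ∩ Set.Iio n).ncard : ℝ) := by
  classical
  induction n with
  | zero => simp
  | succ n ih =>
    rw [Finset.sum_range_succ, Finset.sum_range_succ, ih]
    by_cases h : n ∈ C
    · have h1 : (C ∩ Set.Iio (n + 1)) = insert n (C ∩ Set.Iio n) := by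
        ext x
        simp only [Set.mem_inter_iff, Set.mem_Iio, Set.mem_insert_iff]
        constructor
        · rintro ⟨h1, h2⟩
          rcases Nat.lt_succ_iff_lt_or_eq.1 h2 with h3 | h3
          · exact Or.inr ⟨h1, h3⟩
          · exact Or.inl h3
        · rintro (h1 | h1)
          · rw [h1]; exact ⟨h, Nat.lt_succ_self n⟩
          · exact ⟨h1.1, by omega⟩
      have h2 : ((C ∩ Set.Iio (n + 1)).ncard : ℝ) = ((C ∩ Set.Iio n).ncard : ℝ) + 1 := by
        rw [h1, Set.ncard_insert_of_notMem (by simp)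
          ((Set.finite_Iio n).subset Set.inter_subset_right)]
        push_cast; ring
      rw [h2, Set.indicator_of_mem h]; ring
    · have h1 : (C ∩ Set.Iio (n + 1)) = C ∩ Set.Iio n := by
        ext x
        simp only [Set.mem_inter_iff, Set.mem_Iio]
        constructor
        · rintro ⟨h1, h2⟩
          rcases Nat.lt_succ_iff_lt_or_eq.1 h2 with h3 | h3
          · exact ⟨h1, h3⟩
          · exact absurd (h3 ▸ h1) h
        · rintro ⟨h1, h2⟩; exact ⟨h1, by omega⟩
      rw [h1, Set.indicator_of_notMem h]; ring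

/-- If `f` is nonincreasing then `EU_f` itself is increasing-invariant. -/
theorem anti {f : ℕ → ℝ} (hf : Good f) (hanti : Antitone f) : HasCopy (EU f) := by
  refine ⟨Equiv.refl ℕ, ?_⟩
  rintro _ ⟨B, hB, rfl⟩ C hdom
  simp only [Equiv.coe_refl, Set.image_id'] at *
  have hid : (fun A : Set ℕ => id '' A) '' EU f = EU f := by simp
  refine ⟨C, ?_, by simp⟩
  have hB' : Tendsto (fun n => (∑ i ∈ Finset.range n, B.indicator f i) /
    ∑ i ∈ Finset.range n, f i) atTop (𝓝 0) := hB
  refine squeeze_zero (fun n => ?_) (fun n => ?_) hB'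
  · exact div_nonneg (Finset.sum_nonneg fun i _ => Set.indicator_nonneg (fun x _ => hf.1 x) i)
      (Finset.sum_nonneg fun i _ => hf.1 i)
  · refine div_le_div_of_nonneg_right ?_ (Finset.sum_nonneg fun i _ => hf.1 i)
    rw [abel f C n, abel f B n]
    have hd : ∀ n : ℕ, ((C ∩ Set.Iio n).ncard : ℝ) ≤ ((B ∩ Set.Iio n).ncard : ℝ) := by
      intro n
      have := hdom n
      simp at this
      exact_mod_cast this
    refine add_le_add (Finset.sum_le_sum fun i _ => ?_) ?_
    · exact mul_le_mul_of_nonneg_left (hd _) (sub_nonneg.2 (hanti (Nat.le_succ i)))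
    · exact mul_le_mul_of_nonneg_left (hd _) (hf.1 n)

end Run7.h157.EU
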