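import Pool.Agent.Run7.h157.EU.Defs

set_option autoImplicit false

namespace Run7.h157.EU

open Filter Topology

/-- partial sums of the block sizes -/
def S (s : ℕ → ℕ) (n : ℕ) : ℕ := ∑ m ∈ Finset.range n, s m

/-- consecutive intervals of lengths `s 0, s 1, …` -/
def Blk (s : ℕ → ℕ) (n : ℕ) : Finset ℕ := Finset.Ico (S s n) (S s (n + 1))

lemma S_succ (s : ℕ → ℕ) (n : ℕ) : S s (n + 1) = S s n + s n := Finset.sum_range_succ _ _

lemma Blk_card (s : ℕ → ℕ) (n : ℕ) : (Blk s n).card = s n := by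
  rw [Blk, Nat.card_Ico, S_succ]; omega

lemma S_mono (s : ℕ → ℕ) : Monotone (S s) :=
  monotone_nat_of_le_succ (fun n => by rw [S_succ]; omega)

lemma le_S (s : ℕ → ℕ) (hs : ∀ n, 0 < s n) (n : ℕ) : n ≤ S s n := by
  induction n with
  | zero => simp
  | succ n ih => rw [S_succ]; have := hs n; omega

lemma Blk_cov (s : ℕ → ℕ) (hs : ∀ n, 0 < s n) (x : ℕ) : ∃ n, x ∈ Blk s n := by
  classical
  have hex : ∃ n, x < S s (n + 1) := ⟨x, by have := le_S s hs (x + 1); omega⟩
  refine ⟨Nat.find hex, Finset.mem_Ico.2 ⟨?_, Nat.find_spec hex⟩⟩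
  rcases Nat.eq_zero_or_pos (Nat.find hex) with h | h
  · rw [h]; simp [S]
  · have h1 := Nat.find_min hex (m := Nat.find hex - 1) (by omega)
    rw [Nat.sub_add_cancel h] at h1
    omega

lemma Blk_dis (s : ℕ → ℕ) : ∀ m n, m ≠ n → Disjoint (Blk s m) (Blk s n) := by
  have h : ∀ m n, m < n → Disjoint (Blk s m) (Blk s n) := by
    intro m n hmn
    rw [Finset.disjoint_left]
    intro x hx hx'
    have h1 := (Finset.mem_Ico.1 hx).2
    have h2 := (Finset.mem_Ico.1 hx').1
    have h3 := S_mono s (show m + 1 ≤ n by omega)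
    omega
  intro m n hmn
  rcases lt_or_gt_of_ne hmn with h1 | h1
  · exact h m n h1
  · exact (h n m h1).symm

theorem isEU (s : ℕ → ℕ) (hs : ∀ n, 0 < s n) (hs' : Tendsto s atTop atTop) :
    ∃ f : ℕ → ℝ, Good f ∧ EU f = Unif (Blk s) := by
  classical
  choose b hb using Blk_cov s hs
  have hbu : ∀ x n, x ∈ Blk s n → b x = n := by
    intro x n hx
    by_contra hne
    exact Finset.disjoint_left.1 (Blk_dis s (b x) n hne) (hb x) hx
  set f : ℕ → ℝ := fun x => 2 ^ (b x) / (s (b x) : ℝ) with hf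
  have hf0 : ∀ x, 0 ≤ f x := fun x => by positivity
  have hspos : ∀ n, (0 : ℝ) < s n := fun n => by exact_mod_cast hs n
  have hfb : ∀ n, ∀ x ∈ Blk s n, f x = 2 ^ n / (s n : ℝ) := by
    intro n x hx
    rw [hf]; simp only [hbu x n hx]
  -- block sums
  have hstep : ∀ (g : ℕ → ℝ) (n : ℕ), ∑ i ∈ Finset.range (S s (n + 1)), g i =
      ∑ i ∈ Finset.range (S s n), g i + ∑ i ∈ Blk s n, g i := by
    intro g n
    rw [Finset.range_eq_Ico, Finset.range_eq_Ico, Blk,
      Finset.sum_Ico_consecutive _ (Nat.zero_le _) (S_mono s (Nat.le_succ n))]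
  have htot : ∀ n, ∑ i ∈ Finset.range (S s n), f i = 2 ^ n - 1 := by
    intro n
    induction n with
    | zero => simp [S]
    | succ n ih =>
      rw [hstep, ih, Finset.sum_congr rfl (hfb n), Finset.sum_const, Blk_card, nsmul_eq_mul,
        mul_div_cancel₀ _ (hspos n).ne', pow_succ]
      ring
  have htm : Monotone (fun n => ∑ i ∈ Finset.range n, f i) := by
    intro m n hmn
    exact Finset.sum_le_sum_of_subset_of_nonneg (Finset.range_mono hmn) (fun i _ _ => hf0 i)
  have hbge : ∀ n x, S s n ≤ x → n ≤ b x := by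
    intro n x hx
    by_contra hlt
    have h1 := (Finset.mem_Ico.1 (hb x)).2
    have h2 := S_mono s (show b x + 1 ≤ n by omega)
    omega
  have hbt : Tendsto b atTop atTop := tendsto_atTop_atTop.2 (fun n => ⟨S s n, fun x hx => hbge n x hx⟩)
  have hhalf : ∀ n, 1 ≤ n → (2 : ℝ) ^ n / 2 ≤ 2 ^ n - 1 := by
    intro n hn
    have : (2 : ℝ) ^ 1 ≤ 2 ^ n := pow_le_pow_right₀ (by norm_num) hn
    linarith
  have htotb : ∀ x, 1 ≤ b x → (2 : ℝ) ^ (b x) / 2 ≤ ∑ i ∈ Finset.range x, f i := by
    intro x hx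
    have h1 := htm (Finset.mem_Ico.1 (hb x)).1
    have h2 : ∑ i ∈ Finset.range (S s (b x)), f i ≤ ∑ i ∈ Finset.range x, f i := h1
    rw [htot] at h2
    exact (hhalf _ hx).trans h2
  refine ⟨f, ⟨hf0, ?_, ?_⟩, ?_⟩
  · rw [tendsto_atTop_atTop]
    intro c
    obtain ⟨n, hn⟩ := pow_unbounded_of_one_lt (c + 1) (by norm_num : (1 : ℝ) < 2)
    refine ⟨S s n, fun x hx => ?_⟩
    have h1 : ∑ i ∈ Finset.range (S s n), f i ≤ ∑ i ∈ Finset.range x, f i := htm hx
    rw [htot] at h1
    linarith
  · have h1 : Tendsto (fun x => 2 / (s (b x) : ℝ)) atTop (𝓝 0) := by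
      have h2 : Tendsto (fun x => (s (b x) : ℝ)) atTop atTop :=
        tendsto_natCast_atTop_atTop.comp (hs'.comp hbt)
      exact Tendsto.div_atTop tendsto_const_nhds h2
    refine squeeze_zero' (Eventually.of_forall fun x => div_nonneg (hf0 x)
      (Finset.sum_nonneg fun i _ => hf0 i)) ?_ h1
    filter_upwards [hbt.eventually_ge_atTop 1] with x hx
    have h2 := htotb x hx
    have h3 : ∑ i ∈ Finset.range x, f i ≤ ∑ i ∈ Finset.range (x + 1), f i := htm (Nat.le_succ x)
    have h4 : (0 : ℝ) < 2 ^ (b x) := by positivity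
    rw [div_le_div_iff₀ (by linarith) (hspos _)]
    have h5 : f x * s (b x) = 2 ^ (b x) := by
      rw [hf]; exact div_mul_cancel₀ _ (hspos _).ne'
    rw [h5]; linarith
  · ext A
    -- block sums of the indicator
    have hblk : ∀ m, ∑ i ∈ Blk s m, A.indicator f i =
        2 ^ m * (((A ∩ (Blk s m : Set ℕ)).ncard : ℝ) / ((Blk s m).card : ℝ)) := by
      intro m
      have h1 : ∑ i ∈ Blk s m, A.indicator f i =
          ∑ i ∈ (Blk s m).filter (fun i => i ∈ A), 2 ^ m / (s m : ℝ) := by
        rw [Finset.sum_filter]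
        refine Finset.sum_congr rfl fun i hi => ?_
        by_cases h : i ∈ A
        · rw [Set.indicator_of_mem h, if_pos h, hfb m i hi]
        · rw [Set.indicator_of_notMem h, if_neg h]
      have h2 : A ∩ (Blk s m : Set ℕ) = (((Blk s m).filter (fun i => i ∈ A) : Finset ℕ) : Set ℕ) := by
        ext x; simp [and_comm]
      rw [h1, Finset.sum_const, nsmul_eq_mul, h2, Set.ncard_coe_finset, Blk_card]
      ring
    have hnum : ∀ n, ∑ i ∈ Finset.range (S s n), A.indicator f i = ∑ m ∈ Finset.range n,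
        2 ^ m * (((A ∩ (Blk s m : Set ℕ)).ncard : ℝ) / ((Blk s m).card : ℝ)) := by
      intro n
      induction n with
      | zero => simp [S]
      | succ n ih => rw [hstep, ih, hblk, Finset.sum_range_succ]
    set μ : ℕ → ℝ := fun m => ((A ∩ (Blk s m : Set ℕ)).ncard : ℝ) / ((Blk s m).card : ℝ) with hμ
    have hμ0 : ∀ m, 0 ≤ μ m := fun m => by positivity
    have hμ1 : ∀ m, μ m ≤ 1 := by
      intro m
      have h0 : (A ∩ (Blk s m : Set ℕ)).ncard ≤ (Blk s m).card := by
        have := Set.ncard_le_ncard (Set.inter_subset_right (s := A) (t := (Blk s m : Set ℕ)))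
          (Blk s m).finite_toSet
        rwa [Set.ncard_coe_finset] at this
      have h1 : (0 : ℝ) < ((Blk s m).card : ℝ) := by rw [Blk_card]; exact hspos m
      rw [hμ]
      show _ / _ ≤ _
      rw [div_le_one h1]
      exact_mod_cast h0
    have hnm : Monotone (fun n => ∑ i ∈ Finset.range n, A.indicator f i) := by
      intro m n hmn
      exact Finset.sum_le_sum_of_subset_of_nonneg (Finset.range_mono hmn)
        (fun i _ _ => Set.indicator_nonneg (fun x _ => hf0 x) i)
    show Tendsto _ _ _ ↔ Tendsto μ atTop (𝓝 0)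
    constructor
    · intro h
      have h1 : Tendsto (fun n => S s (n + 1)) atTop atTop :=
        tendsto_atTop_mono (fun n => (Nat.le_succ n).trans (le_S s hs (n + 1))) tendsto_id
      have h2 := (h.comp h1).const_mul 2
      rw [mul_zero] at h2
      refine squeeze_zero hμ0 (fun n => ?_) h2
      simp only [Function.comp]
      rw [hnum, htot, Finset.sum_range_succ]
      have h3 : 0 ≤ ∑ m ∈ Finset.range n, 2 ^ m * μ m :=
        Finset.sum_nonneg fun m _ => mul_nonneg (by positivity) (hμ0 m)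
      have h4 : (1 : ℝ) ≤ 2 ^ n := one_le_pow₀ (by norm_num)
      have h5 : (0 : ℝ) < 2 ^ (n + 1) - 1 := by rw [pow_succ]; linarith
      rw [← mul_div_assoc, le_div_iff₀ h5]
      have h6 : 0 ≤ μ n := hμ0 n
      have h7 : μ n * (2 ^ (n + 1) - 1) ≤ 2 * (2 ^ n * μ n) := by
        rw [pow_succ]; nlinarith
      have h8 : (2 : ℝ) * (2 ^ n * μ n) ≤ 2 * (∑ m ∈ Finset.range n, 2 ^ m * μ m + 2 ^ n * μ n) := by
        linarith
      exact h7.trans h8
    · intro h
      rw [Metric.tendsto_atTop]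
      intro ε hε
      obtain ⟨m₀, hm₀⟩ := eventually_atTop.1 (h.eventually (gt_mem_nhds (show (0 : ℝ) < ε / 8 by positivity)))
      obtain ⟨n₁, hn₁⟩ := pow_unbounded_of_one_lt (8 * 2 ^ m₀ / ε) (by norm_num : (1 : ℝ) < 2)
      refine ⟨S s (n₁ + 1), fun x hx => ?_⟩
      have hbx : n₁ + 1 ≤ b x := hbge _ x hx
      have hden := htotb x (by omega)
      have hxx := (Finset.mem_Ico.1 (hb x)).2
      have hn2 : ∑ i ∈ Finset.range x, A.indicator f i ≤
          ∑ i ∈ Finset.range (S s (b x + 1)), A.indicator f i := hnm hxx.le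
      rw [hnum] at hn2
      have hpb : (0 : ℝ) < 2 ^ (b x) := by positivity
      have hn0 : 0 ≤ ∑ i ∈ Finset.range x, A.indicator f i :=
        Finset.sum_nonneg fun i _ => Set.indicator_nonneg (fun x _ => hf0 x) i
      rw [Real.dist_eq, sub_zero, abs_of_nonneg (div_nonneg hn0 (by linarith)),
        div_lt_iff₀ (by linarith)]
      have h3 : ∀ m ∈ Finset.range (b x + 1), (2 : ℝ) ^ m * μ m ≤
          (if m < m₀ then 2 ^ m else 0) + 2 ^ m * (ε / 8) := by
        intro m _
        have hp : (0 : ℝ) < 2 ^ m := by positivity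
        split_ifs with hlt
        · have := mul_le_mul_of_nonneg_left (hμ1 m) hp.le
          nlinarith
        · have := mul_le_mul_of_nonneg_left (hm₀ m (by omega)).le hp.le
          linarith
      have h4 : ∑ m ∈ Finset.range (b x + 1), (if m < m₀ then (2 : ℝ) ^ m else 0) ≤ 2 ^ m₀ := by
        rw [← Finset.sum_filter]
        calc _ ≤ ∑ m ∈ Finset.range m₀, (2 : ℝ) ^ m := by
              refine Finset.sum_le_sum_of_subset_of_nonneg ?_ (fun _ _ _ => by positivity)
              intro m hm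
              exact Finset.mem_range.2 (Finset.mem_filter.1 hm).2
          _ ≤ 2 ^ m₀ := by
              rw [geom_sum_eq (by norm_num)]
              norm_num
      have h5 : ∑ m ∈ Finset.range (b x + 1), (2 : ℝ) ^ m * (ε / 8) ≤ 2 * 2 ^ (b x) * (ε / 8) := by
        rw [← Finset.sum_mul]
        refine mul_le_mul_of_nonneg_right ?_ (by positivity)
        rw [geom_sum_eq (by norm_num), pow_succ]
        norm_num
        linarith
      have h6 : ∑ i ∈ Finset.range x, A.indicator f i ≤ 2 ^ m₀ + 2 * 2 ^ (b x) * (ε / 8) := by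
        refine hn2.trans ((Finset.sum_le_sum h3).trans ?_)
        rw [Finset.sum_add_distrib]
        linarith
      have h7 : (2 : ℝ) ^ m₀ < ε / 8 * 2 ^ (b x) := by
        have h8 : (2 : ℝ) ^ n₁ ≤ 2 ^ (b x) := pow_le_pow_right₀ (by norm_num) (by omega)
        have h9 : 8 * 2 ^ m₀ / ε < 2 ^ (b x) := lt_of_lt_of_le hn₁ h8
        rw [div_lt_iff₀ hε] at h9
        linarith
      have h10 : ε * (2 ^ (b x) / 2) ≤ ε * ∑ i ∈ Finset.range x, f i :=
        mul_le_mul_of_nonneg_left hden hε.le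
      linarith

end Run7.h157.EU
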