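import Pool.Agent.Run7.h157.EU.Defs

set_option autoImplicit false

namespace Run7.h157.EU

open Filter Topology

lemma rank_equiv {α : Type*} [LinearOrder α] (key : ℕ → α) (hinj : Function.Injective key)
    (hfin : ∀ x, {y | key y ≤ key x}.Finite) :
    ∃ φ : ℕ ≃ ℕ, ∀ x y, φ x ≤ φ y ↔ key x ≤ key y := by
  classical
  have hfin' : ∀ x, {y | key y < key x}.Finite := fun x =>
    (hfin x).subset (fun y (hy : key y < key x) => (le_of_lt hy : key y ≤ key x))
  set rank : ℕ → ℕ := fun x => {y | key y < key x}.ncard with hrank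
  have hlt : ∀ x y, key x < key y → rank x < rank y := by
    intro x y hxy
    refine Set.ncard_lt_ncard ?_ (hfin' y)
    refine ⟨fun z (hz : key z < key x) => lt_trans hz hxy, fun hsub => ?_⟩
    have : x ∈ {z | key z < key x} := hsub hxy
    exact lt_irrefl _ this
  have hiff : ∀ x y, rank x ≤ rank y ↔ key x ≤ key y := by
    intro x y
    constructor
    · intro h
      by_contra hn
      exact absurd (hlt y x (not_le.1 hn)) (not_lt.2 h)
    · intro h
      rcases lt_or_eq_of_le h with h | h
      · exact (hlt x y h).le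
      · rw [hinj h]
  have hinjr : Function.Injective rank := by
    intro x y hxy
    exact hinj (le_antisymm ((hiff x y).1 hxy.le) ((hiff y x).1 hxy.ge))
  have hsurj : Function.Surjective rank := by
    intro n
    induction n with
    | zero =>
      obtain ⟨x, hx, hmin⟩ := Set.exists_min_image {y | key y ≤ key 0} key (hfin 0) ⟨0, le_refl _⟩
      refine ⟨x, ?_⟩
      have hx' : key x ≤ key 0 := hx
      have : {y | key y < key x} = ∅ := by
        ext y
        simp only [Set.mem_setOf_eq, Set.mem_empty_iff_false, iff_false, not_lt]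
        by_contra hlt'
        push Not at hlt'
        exact absurd (hmin y (le_trans hlt'.le hx')) (not_le.2 hlt')
      show Set.ncard _ = 0
      rw [this, Set.ncard_empty]
    | succ n ih =>
      obtain ⟨x, hx⟩ := ih
      obtain ⟨y₀, hy₀⟩ := (hfin x).infinite_compl.nonempty
      have hy₀' : key x < key y₀ := not_le.1 hy₀
      obtain ⟨x₁, hx₁, hmin⟩ := Set.exists_min_image {z | key x < key z ∧ key z ≤ key y₀} key
        ((hfin y₀).subset (fun z hz => hz.2)) ⟨y₀, hy₀', le_refl _⟩
      refine ⟨x₁, ?_⟩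
      have : {y | key y < key x₁} = insert x {y | key y < key x} := by
        ext y
        simp only [Set.mem_setOf_eq, Set.mem_insert_iff]
        constructor
        · intro hy
          by_contra hno
          push Not at hno
          have h1 : key x < key y := lt_of_le_of_ne hno.2 (fun h => hno.1 (hinj h).symm)
          exact absurd (hmin y ⟨h1, le_trans hy.le hx₁.2⟩) (not_le.2 hy)
        · rintro (h | h)
          · rw [h]; exact hx₁.1
          · exact lt_trans h hx₁.1
      show Set.ncard _ = n + 1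
      rw [this, Set.ncard_insert_of_notMem (by simp) (hfin' x)]
      show rank x + 1 = n + 1
      rw [hx]
  exact ⟨Equiv.ofBijective rank ⟨hinjr, hsurj⟩, fun x y => hiff x y⟩

lemma sum_bound (D : ℕ → Finset ℕ) (hfin : ∀ N : ℕ, {m | (D m).card ≤ N}.Finite) (K : ℕ)
    (hK : ∀ N : ℕ, {n | N ≤ (D n).card ∧ (D n).card < 2 * N}.ncard ≤ K) (N : ℕ) :
    ∑ m ∈ (hfin N).toFinset, (D m).card ≤ 2 * K * N := by
  classical
  induction N using Nat.strong_induction_on with
  | _ N ih =>
    rcases Nat.eq_zero_or_pos N with h0 | hpos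
    · subst h0
      refine le_of_eq (Finset.sum_eq_zero fun m hm => ?_)
      have : (D m).card ≤ 0 := by simpa using hm
      omega
    · have hWfin : {n | N / 2 + 1 ≤ (D n).card ∧ (D n).card < 2 * (N / 2 + 1)}.Finite :=
        (hfin (2 * (N / 2 + 1))).subset (fun n hn => hn.2.le)
      have hsub : (hfin N).toFinset ⊆ (hfin (N / 2)).toFinset ∪
          (hWfin.toFinset.filter (fun m => (D m).card ≤ N)) := by
        intro m hm
        have h1 : (D m).card ≤ N := by simpa using hm
        by_cases h2 : (D m).card ≤ N / 2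
        · exact Finset.mem_union_left _ (by simpa using h2)
        · refine Finset.mem_union_right _ (Finset.mem_filter.2 ⟨?_, h1⟩)
          rw [Set.Finite.mem_toFinset]
          exact ⟨by omega, by omega⟩
      have hW : (hWfin.toFinset.filter (fun m => (D m).card ≤ N)).card ≤ K := by
        have h1 := hK (N / 2 + 1)
        rw [Set.ncard_eq_toFinset_card _ hWfin] at h1
        exact (Finset.card_filter_le _ _).trans h1
      calc ∑ m ∈ (hfin N).toFinset, (D m).card
          ≤ ∑ m ∈ (hfin (N / 2)).toFinset ∪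
            (hWfin.toFinset.filter (fun m => (D m).card ≤ N)), (D m).card :=
            Finset.sum_le_sum_of_subset hsub
        _ ≤ ∑ m ∈ (hfin (N / 2)).toFinset, (D m).card +
            ∑ m ∈ hWfin.toFinset.filter (fun m => (D m).card ≤ N), (D m).card := by
            rw [← Finset.sum_union_inter]
            exact Nat.le_add_right _ _
        _ ≤ 2 * K * (N / 2) + K * N := by
            refine Nat.add_le_add (ih (N / 2) (Nat.div_lt_self hpos (by norm_num))) ?_
            calc _ ≤ ∑ m ∈ hWfin.toFinset.filter (fun m => (D m).card ≤ N), N :=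
                  Finset.sum_le_sum fun m hm => (Finset.mem_filter.1 hm).2
              _ ≤ K * N := by
                  rw [Finset.sum_const, smul_eq_mul]
                  exact Nat.mul_le_mul_right _ hW
        _ ≤ 2 * K * N := by
            have : 2 * K * (N / 2) ≤ K * N := by
              have : N / 2 * 2 ≤ N := Nat.div_mul_le_self N 2
              nlinarith
            nlinarith

theorem suf (D : ℕ → Finset ℕ) (hdis : ∀ m n, m ≠ n → Disjoint (D m) (D n))
    (hcov : ∀ x : ℕ, ∃ n, x ∈ D n)
    (hcard : Tendsto (fun n => (D n).card) atTop atTop)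
    (h : ∃ K : ℕ, ∀ N : ℕ, {n | N ≤ (D n).card ∧ (D n).card < 2 * N}.ncard ≤ K) :
    HasCopy (Unif D) := by
  classical
  obtain ⟨K, hK⟩ := h
  have hfin : ∀ N : ℕ, {m | (D m).card ≤ N}.Finite := by
    intro N
    obtain ⟨n₁, hn₁⟩ := eventually_atTop.1 (hcard.eventually_ge_atTop (N + 1))
    refine (Set.finite_Iio n₁).subset (fun m hm => ?_)
    by_contra hge
    have h1 : n₁ ≤ m := by simpa using hge
    have h2 := hn₁ m h1
    have h3 : (D m).card ≤ N := hm
    omega
  choose b hb using hcov
  have hbu : ∀ x n, x ∈ D n → b x = n := by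
    intro x n hx
    by_contra hne
    exact Finset.disjoint_left.1 (hdis (b x) n hne) (hb x) hx
  set key : ℕ → ℕ ×ₗ (ℕ ×ₗ ℕ) := fun x => toLex ((D (b x)).card, toLex (b x, x)) with hkey
  have hinj : Function.Injective key := by
    intro x y hxy
    have h1 := congrArg (fun z => (ofLex (ofLex z).2).2) hxy
    simpa [hkey] using h1
  have hkle : ∀ x y, key x ≤ key y → (D (b x)).card ≤ (D (b y)).card := by
    intro x y hxy
    rw [hkey] at hxy
    rcases Prod.Lex.toLex_le_toLex.1 hxy with h | h
    · exact le_of_lt h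
    · exact le_of_eq h.1
  have hkfin : ∀ x, {y | key y ≤ key x}.Finite := by
    intro x
    refine (Set.Finite.biUnion (hfin (D (b x)).card) (fun m _ => (D m).finite_toSet)).subset ?_
    intro y hy
    exact Set.mem_biUnion (show b y ∈ {m | (D m).card ≤ (D (b x)).card} from hkle y x hy)
      (hb y)
  obtain ⟨φ, hφ⟩ := rank_equiv key hinj hkfin
  refine ⟨φ, ?_⟩
  rintro _ ⟨B, hB, rfl⟩ C' hdom
  refine ⟨φ ⁻¹' C', ?_, Set.image_preimage_eq _ φ.surjective⟩
  have hbound : ∀ n, ((φ ⁻¹' C') ∩ (D n : Set ℕ)).ncard ≤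
      ∑ m ∈ (hfin (D n).card).toFinset, (B ∩ (D m : Set ℕ)).ncard := by
    intro n
    rcases (D n).eq_empty_or_nonempty with he | hne
    · rw [he]; simp
    · obtain ⟨x, hx, hmax⟩ := Finset.exists_max_image (D n) (fun y => φ y) hne
      have h1 : ((φ ⁻¹' C') ∩ (D n : Set ℕ)).ncard ≤ (C' ∩ Set.Iio (φ x + 1)).ncard := by
        rw [← Set.ncard_image_of_injective _ φ.injective]
        refine Set.ncard_le_ncard ?_ ((Set.finite_Iio _).subset Set.inter_subset_right)
        rintro _ ⟨y, ⟨hy1, hy2⟩, rfl⟩
        exact ⟨hy1, Nat.lt_succ_of_le (hmax y hy2)⟩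
      have h2 := hdom (φ x + 1)
      have h3 : (φ '' B ∩ Set.Iio (φ x + 1)).ncard ≤
          (⋃ m ∈ (hfin (D n).card).toFinset, B ∩ (D m : Set ℕ)).ncard := by
        rw [← Set.ncard_image_of_injective (⋃ m ∈ (hfin (D n).card).toFinset, B ∩ (D m : Set ℕ))
          φ.injective]
        refine Set.ncard_le_ncard ?_ ?_
        · rintro _ ⟨⟨y, hy, rfl⟩, hy2⟩
          refine ⟨y, ?_, rfl⟩
          have h4 : φ y ≤ φ x := Nat.le_of_lt_succ hy2
          have h5 := hkle y x ((hφ y x).1 h4)
          rw [hbu x n hx] at h5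
          exact Set.mem_biUnion (by simpa using h5) ⟨hy, hb y⟩
        · refine Set.Finite.image _ ?_
          exact Set.Finite.biUnion (Finset.finite_toSet _)
            (fun m _ => ((D m).finite_toSet).subset Set.inter_subset_right)
      exact h1.trans (h2.trans (h3.trans (Finset.set_ncard_biUnion_le _ _)))
  show Tendsto _ _ _
  rw [Metric.tendsto_atTop]
  intro ε hε
  have hB' : Tendsto (fun n => ((B ∩ (D n : Set ℕ)).ncard : ℝ) / ((D n).card : ℝ)) atTop (𝓝 0) := hB
  set ε' : ℝ := ε / (4 * K + 4) with hε'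
  have hε'pos : 0 < ε' := by positivity
  obtain ⟨m₀, hm₀⟩ := eventually_atTop.1 (hB'.eventually (gt_mem_nhds hε'pos))
  set c : ℕ := ∑ m ∈ Finset.range m₀, (D m).card with hc
  obtain ⟨N₁, hN₁⟩ := exists_nat_gt (2 * (c : ℝ) / ε)
  obtain ⟨n₁, hn₁⟩ := eventually_atTop.1 (hcard.eventually_ge_atTop (N₁ + 1))
  refine ⟨n₁, fun n hn => ?_⟩
  rw [Real.dist_eq, sub_zero, abs_of_nonneg (by positivity)]
  have hD := hn₁ n hn
  have hDpos : (0 : ℝ) < ((D n).card : ℝ) := by exact_mod_cast (by omega : 0 < (D n).card)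
  rw [div_lt_iff₀ hDpos]
  have hle : ∀ m, ((B ∩ (D m : Set ℕ)).ncard : ℝ) ≤ (if m < m₀ then ((D m).card : ℝ) else 0) +
      ε' * (D m).card := by
    intro m
    have h0 : (B ∩ (D m : Set ℕ)).ncard ≤ (D m).card := by
      have := Set.ncard_le_ncard (Set.inter_subset_right (s := B) (t := (D m : Set ℕ)))
        (D m).finite_toSet
      rwa [Set.ncard_coe_finset] at this
    have h0' : ((B ∩ (D m : Set ℕ)).ncard : ℝ) ≤ (D m).card := by exact_mod_cast h0
    split_ifs with hlt
    · have : 0 ≤ ε' * ((D m).card : ℝ) := by positivity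
      linarith
    · have h1 := hm₀ m (by omega)
      rcases Nat.eq_zero_or_pos (D m).card with hz | hp
      · rw [hz] at h0'
        have : 0 ≤ ε' * ((D m).card : ℝ) := by positivity
        rw [zero_add]
        refine h0'.trans ?_
        simpa using this
      · have hp' : (0 : ℝ) < ((D m).card : ℝ) := by exact_mod_cast hp
        rw [div_lt_iff₀ hp'] at h1
        linarith
  have hsum1 : (∑ m ∈ (hfin (D n).card).toFinset, (if m < m₀ then ((D m).card : ℝ) else 0)) ≤ c := by
    rw [← Finset.sum_filter, hc]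
    push_cast
    refine Finset.sum_le_sum_of_subset_of_nonneg ?_ (fun _ _ _ => by positivity)
    intro m hm
    exact Finset.mem_range.2 (Finset.mem_filter.1 hm).2
  have hsum2 : (∑ m ∈ (hfin (D n).card).toFinset, ((D m).card : ℝ)) ≤ 2 * K * (D n).card := by
    exact_mod_cast sum_bound D hfin K hK (D n).card
  have h1 : (((φ ⁻¹' C') ∩ (D n : Set ℕ)).ncard : ℝ) ≤ c + ε' * (2 * K * (D n).card) := by
    calc (((φ ⁻¹' C') ∩ (D n : Set ℕ)).ncard : ℝ)
        ≤ ∑ m ∈ (hfin (D n).card).toFinset, ((B ∩ (D m : Set ℕ)).ncard : ℝ) := by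
          exact_mod_cast hbound n
      _ ≤ ∑ m ∈ (hfin (D n).card).toFinset, ((if m < m₀ then ((D m).card : ℝ) else 0) +
            ε' * (D m).card) := Finset.sum_le_sum fun m _ => hle m
      _ = (∑ m ∈ (hfin (D n).card).toFinset, (if m < m₀ then ((D m).card : ℝ) else 0)) +
            ε' * ∑ m ∈ (hfin (D n).card).toFinset, ((D m).card : ℝ) := by
          rw [Finset.sum_add_distrib, Finset.mul_sum]
      _ ≤ c + ε' * (2 * K * (D n).card) := by
          have := mul_le_mul_of_nonneg_left hsum2 hε'pos.le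
          linarith
  have h2 : (c : ℝ) < ε / 2 * (D n).card := by
    have h3 : (N₁ : ℝ) < ((D n).card : ℝ) := by exact_mod_cast (by omega : N₁ < (D n).card)
    have h4 : 2 * (c : ℝ) / ε < ((D n).card : ℝ) := hN₁.trans h3
    rw [div_lt_iff₀ hε] at h4
    linarith
  have h3 : ε' * (2 * K * (D n).card) ≤ ε / 2 * (D n).card := by
    have h4 : ε' * (2 * K) ≤ ε / 2 := by
      rw [hε', div_mul_eq_mul_div, div_le_div_iff₀ (by positivity) (by norm_num)]
      nlinarith [hε, (Nat.cast_nonneg K : (0:ℝ) ≤ (K:ℝ))]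
    calc ε' * (2 * K * (D n).card) = ε' * (2 * K) * (D n).card := by ring
      _ ≤ ε / 2 * (D n).card := mul_le_mul_of_nonneg_right h4 hDpos.le
  linarith

end Run7.h157.EU
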