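import Pool.Agent.Run7.h157.EU.GenNec
import Pool.Agent.Run7.h157.EU.Suf

set_option autoImplicit false

namespace Run7.h157.EU

open Filter Topology

lemma sum_bound' {ι : Type} (q : ι → Prop) (D : ι → Finset ℕ)
    (hfin : ∀ N : ℕ, {m | q m ∧ (D m).card ≤ N}.Finite) (K : ℕ)
    (hK : ∀ N : ℕ, {n | q n ∧ N ≤ (D n).card ∧ (D n).card < 2 * N}.ncard ≤ K) (N : ℕ) :
    ∑ m ∈ (hfin N).toFinset, (D m).card ≤ 2 * K * N := by
  classical
  induction N using Nat.strong_induction_on with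
  | _ N ih =>
    rcases Nat.eq_zero_or_pos N with h0 | hpos
    · subst h0
      refine le_of_eq (Finset.sum_eq_zero fun m hm => ?_)
      have : (D m).card ≤ 0 := ((Set.Finite.mem_toFinset _).1 hm).2
      omega
    · have hWfin : {n | q n ∧ N / 2 + 1 ≤ (D n).card ∧ (D n).card < 2 * (N / 2 + 1)}.Finite :=
        (hfin (2 * (N / 2 + 1))).subset (fun n hn => ⟨hn.1, hn.2.2.le⟩)
      have hsub : (hfin N).toFinset ⊆ (hfin (N / 2)).toFinset ∪
          (hWfin.toFinset.filter (fun m => (D m).card ≤ N)) := by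
        intro m hm
        have h0 := (Set.Finite.mem_toFinset _).1 hm
        have h1 : (D m).card ≤ N := h0.2
        by_cases h2 : (D m).card ≤ N / 2
        · exact Finset.mem_union_left _ ((Set.Finite.mem_toFinset _).2 ⟨h0.1, h2⟩)
        · refine Finset.mem_union_right _ (Finset.mem_filter.2 ⟨?_, h1⟩)
          rw [Set.Finite.mem_toFinset]
          exact ⟨h0.1, by omega, by omega⟩
      have hW : (hWfin.toFinset.filter (fun m => (D m).card ≤ N)).card ≤ K := by
        have h1 := hK (N / 2 + 1)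
        rw [Set.ncard_eq_toFinset_card _ hWfin] at h1
        exact (Finset.card_filter_le _ _).trans h1
      calc ∑ m ∈ (hfin N).toFinset, (D m).card
          ≤ ∑ m ∈ (hfin (N / 2)).toFinset ∪
            (hWfin.toFinset.filter (fun m => (D m).card ≤ N)), (D m).card :=
            Finset.sum_le_sum_of_subset hsub
        _ ≤ ∑ m ∈ (hfin (N / 2)).toFinset, (D m).card +
            ∑ m ∈ hWfin.toFinset.filter (fun m => (D m).card ≤ N), (D m).card := by
            rw [← Finset.sum_union_inter]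
            exact Nat.le_add_right _ _
        _ ≤ 2 * K * (N / 2) + K * N := by
            refine Nat.add_le_add (ih (N / 2) (Nat.div_lt_self hpos (by norm_num))) ?_
            calc _ ≤ ∑ m ∈ hWfin.toFinset.filter (fun m => (D m).card ≤ N), N :=
                  Finset.sum_le_sum fun m hm => (Finset.mem_filter.1 hm).2
              _ ≤ K * N := by
                  rw [Finset.sum_const, smul_eq_mul]
                  exact Nat.mul_le_mul_right _ hW
        _ ≤ 2 * K * N := by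
            have : 2 * K * (N / 2) ≤ K * N := by
              have : N / 2 * 2 ≤ N := Nat.div_mul_le_self N 2
              nlinarith
            nlinarith

theorem suf_gen {ι : Type} [Countable ι] (D : ι → Finset ℕ) (ρ : ι → ℝ)
    (hdis : ∀ m n, m ≠ n → Disjoint (D m) (D n))
    (hcov : ∀ x : ℕ, ∃ n, x ∈ D n) (hne : ∀ j, (D j).Nonempty)
    (hρ0 : ∀ j, 0 < ρ j) (hρ1 : ∀ j, ρ j ≤ 1)
    (H : ∀ ε : ℝ, 0 < ε → ∀ N : ℕ, {j | ε ≤ ρ j ∧ (D j).card ≤ N}.Finite)
    (hK : ∀ ε : ℝ, 0 < ε →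
      ∃ K : ℕ, ∀ N : ℕ, {n | ε ≤ ρ n ∧ N ≤ (D n).card ∧ (D n).card < 2 * N}.ncard ≤ K) :
    HasCopy (Pc D ρ) := by
  classical
  obtain ⟨enc, henc⟩ := exists_injective_nat ι
  have hhalf : ∀ i : ℕ, (0 : ℝ) < (1 / 2) ^ i := fun i => by positivity
  -- levels
  have hlev : ∀ j, ∃ i : ℕ, (1 / 2 : ℝ) ^ i ≤ ρ j := by
    intro j
    obtain ⟨i, hi⟩ := exists_pow_lt_of_lt_one (hρ0 j) (by norm_num : (1 / 2 : ℝ) < 1)
    exact ⟨i, hi.le⟩
  set ℓ : ι → ℕ := fun j => Nat.find (hlev j) with hℓ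
  have hℓ1 : ∀ j, (1 / 2 : ℝ) ^ (ℓ j) ≤ ρ j := fun j => Nat.find_spec (hlev j)
  have hℓ2 : ∀ j i, i < ℓ j → ρ j < (1 / 2 : ℝ) ^ i := fun j i hi => not_le.1 (Nat.find_min (hlev j) hi)
  choose Kf hKf using fun i : ℕ => hK ((1 / 2 : ℝ) ^ i) (hhalf i)
  set Λ : ℕ → ℕ := fun i => 4 ^ (i + 1) * (Kf i + 1) with hΛ
  have hΛpos : ∀ i, 0 < Λ i := fun i => by positivity
  set V : ι → ℕ := fun j => (D j).card * Λ (ℓ j) with hV
  have hDpos : ∀ j, 0 < (D j).card := fun j => Finset.card_pos.2 (hne j)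
  have hVfin : ∀ v : ℕ, {j | V j ≤ v}.Finite := by
    intro v
    refine (Set.Finite.biUnion (Finset.finite_toSet (Finset.range (v + 1)))
      (fun i _ => H ((1 / 2 : ℝ) ^ i) (hhalf i) v)).subset ?_
    intro j hj
    have hj' : (D j).card * Λ (ℓ j) ≤ v := hj
    have h1 : (D j).card ≤ v := (Nat.le_mul_of_pos_right _ (hΛpos _)).trans hj'
    have h2 : Λ (ℓ j) ≤ v := (Nat.le_mul_of_pos_left _ (hDpos j)).trans hj'
    have h3 : ℓ j < 4 ^ (ℓ j + 1) := (Nat.lt_succ_self _).trans (Nat.lt_pow_self (by norm_num))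
    have h4 : 4 ^ (ℓ j + 1) ≤ Λ (ℓ j) := Nat.le_mul_of_pos_right _ (Nat.succ_pos _)
    exact Set.mem_biUnion (show ℓ j ∈ ((Finset.range (v + 1) : Finset ℕ) : Set ℕ) from
      Finset.mem_coe.2 (Finset.mem_range.2 (by omega))) ⟨hℓ1 j, h1⟩
  -- sum over one level
  have hlevsum : ∀ (v i : ℕ), (∑ j ∈ (hVfin v).toFinset.filter (fun j => ℓ j = i), ((D j).card : ℝ)) ≤
      v * (1 / 2 : ℝ) ^ (i + 1) := by
    intro v i
    have h1 := sum_bound' (fun j => (1 / 2 : ℝ) ^ i ≤ ρ j) D (H _ (hhalf i)) (Kf i) (hKf i) (v / Λ i)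
    have h2 : (hVfin v).toFinset.filter (fun j => ℓ j = i) ⊆
        (H _ (hhalf i) (v / Λ i)).toFinset := by
      intro j hj
      rw [Finset.mem_filter, Set.Finite.mem_toFinset] at hj
      rw [Set.Finite.mem_toFinset]
      have hj1 : (D j).card * Λ (ℓ j) ≤ v := hj.1
      rw [hj.2] at hj1
      refine ⟨by have := hℓ1 j; rwa [hj.2] at this, (Nat.le_div_iff_mul_le (hΛpos i)).2 hj1⟩
    have h3 : ∑ j ∈ (hVfin v).toFinset.filter (fun j => ℓ j = i), (D j).card ≤
        2 * Kf i * (v / Λ i) := (Finset.sum_le_sum_of_subset h2).trans h1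
    have h4 : (∑ j ∈ (hVfin v).toFinset.filter (fun j => ℓ j = i), ((D j).card : ℝ)) ≤
        2 * Kf i * ((v / Λ i : ℕ) : ℝ) := by exact_mod_cast h3
    have h5 : ((v / Λ i : ℕ) : ℝ) ≤ (v : ℝ) / (Λ i : ℝ) := Nat.cast_div_le
    have h6 : (Λ i : ℝ) = 4 ^ (i + 1) * (Kf i + 1) := by rw [hΛ]; push_cast; ring
    have hKnn : (0 : ℝ) ≤ Kf i := Nat.cast_nonneg _
    have h7 : 2 * (Kf i : ℝ) * ((v : ℝ) / (Λ i : ℝ)) ≤ v * (1 / 2 : ℝ) ^ (i + 1) := by
      rw [h6, ← mul_div_assoc, div_le_iff₀ (by positivity)]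
      have h8 : (1 / 2 : ℝ) ^ (i + 1) * 4 ^ (i + 1) = 2 ^ (i + 1) := by
        rw [← mul_pow]; norm_num
      have h9 : (2 : ℝ) ≤ 2 ^ (i + 1) := by
        have : (2 : ℝ) ^ 1 ≤ 2 ^ (i + 1) := pow_le_pow_right₀ (by norm_num) (by omega)
        linarith
      have hv : (0 : ℝ) ≤ v := Nat.cast_nonneg _
      calc 2 * (Kf i : ℝ) * v ≤ 2 ^ (i + 1) * (Kf i + 1) * v := by
            refine mul_le_mul_of_nonneg_right ?_ hv
            exact mul_le_mul h9 (by linarith) hKnn (by positivity)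
        _ = v * (1 / 2 : ℝ) ^ (i + 1) * (4 ^ (i + 1) * (Kf i + 1)) := by
            rw [← h8]; ring
    refine h4.trans (le_trans ?_ h7)
    exact mul_le_mul_of_nonneg_left h5 (by positivity)
  -- tails
  have htail : ∀ (v a : ℕ), (∑ j ∈ (hVfin v).toFinset.filter (fun j => a ≤ ℓ j), ((D j).card : ℝ)) ≤
      v * (1 / 2 : ℝ) ^ a := by
    intro v a
    set T := (hVfin v).toFinset.filter (fun j => a ≤ ℓ j) with hT
    set M := T.sup ℓ + 1 with hM
    have hmaps : ∀ j ∈ T, ℓ j ∈ Finset.Ico a (a + M) := by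
      intro j hj
      have h1 : ℓ j ≤ T.sup ℓ := Finset.le_sup (f := ℓ) hj
      exact Finset.mem_Ico.2 ⟨(Finset.mem_filter.1 hj).2, by omega⟩
    rw [← Finset.sum_fiberwise_of_maps_to hmaps]
    have h1 : ∀ i ∈ Finset.Ico a (a + M), (∑ j ∈ T.filter (fun j => ℓ j = i), ((D j).card : ℝ)) ≤
        v * (1 / 2 : ℝ) ^ (i + 1) := by
      intro i _
      refine le_trans (Finset.sum_le_sum_of_subset_of_nonneg ?_ (fun _ _ _ => by positivity))
        (hlevsum v i)
      intro j hj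
      rw [hT, Finset.mem_filter, Finset.mem_filter] at hj
      exact Finset.mem_filter.2 ⟨hj.1.1, hj.2⟩
    refine (Finset.sum_le_sum h1).trans ?_
    rw [← Finset.mul_sum]
    refine mul_le_mul_of_nonneg_left ?_ (Nat.cast_nonneg _)
    have h2 : ∀ m : ℕ, ∑ i ∈ Finset.Ico a (a + m), (1 / 2 : ℝ) ^ (i + 1) =
        (1 / 2) ^ a - (1 / 2) ^ (a + m) := by
      intro m
      induction m with
      | zero => simp
      | succ m ih =>
        rw [← add_assoc, Finset.sum_Ico_succ_top (by omega), ih, pow_succ]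
        ring
    rw [h2]
    have := hhalf (a + M)
    linarith
  have hall : ∀ v : ℕ, (∑ j ∈ (hVfin v).toFinset, ((D j).card : ℝ)) ≤ v := by
    intro v
    have h1 := htail v 0
    simpa using h1
  -- the ordering
  choose b hb using hcov
  have hbu : ∀ x n, x ∈ D n → b x = n := by
    intro x n hx
    by_contra hne
    exact Finset.disjoint_left.1 (hdis (b x) n hne) (hb x) hx
  set key : ℕ → ℕ ×ₗ (ℕ ×ₗ ℕ) := fun x => toLex (V (b x), toLex (enc (b x), x)) with hkey
  have hinj : Function.Injective key := by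
    intro x y hxy
    have h1 := congrArg (fun z => (ofLex (ofLex z).2).2) hxy
    simpa [hkey] using h1
  have hkle : ∀ x y, key x ≤ key y → V (b x) ≤ V (b y) := by
    intro x y hxy
    rw [hkey] at hxy
    rcases Prod.Lex.toLex_le_toLex.1 hxy with h | h
    · exact le_of_lt h
    · exact le_of_eq h.1
  have hkfin : ∀ x, {y | key y ≤ key x}.Finite := by
    intro x
    refine (Set.Finite.biUnion (hVfin (V (b x))) (fun m _ => (D m).finite_toSet)).subset ?_
    intro y hy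
    exact Set.mem_biUnion (show b y ∈ {m | V m ≤ V (b x)} from hkle y x hy) (hb y)
  obtain ⟨φ, hφ⟩ := rank_equiv key hinj hkfin
  refine ⟨φ, ?_⟩
  rintro _ ⟨B, hB, rfl⟩ C' hdom
  refine ⟨φ ⁻¹' C', ?_, Set.image_preimage_eq _ φ.surjective⟩
  have hbound : ∀ n, ((φ ⁻¹' C') ∩ (D n : Set ℕ)).ncard ≤
      ∑ m ∈ (hVfin (V n)).toFinset, (B ∩ (D m : Set ℕ)).ncard := by
    intro n
    obtain ⟨x, hx, hmax⟩ := Finset.exists_max_image (D n) (fun y => φ y) (hne n)
    have h1 : ((φ ⁻¹' C') ∩ (D n : Set ℕ)).ncard ≤ (C' ∩ Set.Iio (φ x + 1)).ncard := by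
      rw [← Set.ncard_image_of_injective _ φ.injective]
      refine Set.ncard_le_ncard ?_ ((Set.finite_Iio _).subset Set.inter_subset_right)
      rintro _ ⟨y, ⟨hy1, hy2⟩, rfl⟩
      exact ⟨hy1, Nat.lt_succ_of_le (hmax y hy2)⟩
    have h2 := hdom (φ x + 1)
    have h3 : (φ '' B ∩ Set.Iio (φ x + 1)).ncard ≤
        (⋃ m ∈ (hVfin (V n)).toFinset, B ∩ (D m : Set ℕ)).ncard := by
      rw [← Set.ncard_image_of_injective (⋃ m ∈ (hVfin (V n)).toFinset, B ∩ (D m : Set ℕ))
        φ.injective]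
      refine Set.ncard_le_ncard ?_ ?_
      · rintro _ ⟨⟨y, hy, rfl⟩, hy2⟩
        refine ⟨y, ?_, rfl⟩
        have h4 : φ y ≤ φ x := Nat.le_of_lt_succ hy2
        have h5 := hkle y x ((hφ y x).1 h4)
        rw [hbu x n hx] at h5
        exact Set.mem_biUnion ((Set.Finite.mem_toFinset _).2 h5) ⟨hy, hb y⟩
      · refine Set.Finite.image _ ?_
        exact Set.Finite.biUnion (Finset.finite_toSet _)
          (fun m _ => ((D m).finite_toSet).subset Set.inter_subset_right)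
    exact h1.trans (h2.trans (h3.trans (Finset.set_ncard_biUnion_le _ _)))
  have hle1 : ∀ (A : Set ℕ) (m : ι), ((A ∩ (D m : Set ℕ)).ncard : ℝ) ≤ (D m).card := by
    intro A m
    have := Set.ncard_le_ncard (Set.inter_subset_right (s := A) (t := (D m : Set ℕ)))
      (D m).finite_toSet
    rw [Set.ncard_coe_finset] at this
    exact_mod_cast this
  have hDR : ∀ j, (0 : ℝ) < ((D j).card : ℝ) := fun j => by exact_mod_cast hDpos j
  -- the sum over `B` is small
  have hsmall : ∀ η : ℝ, 0 < η → ∃ c : ℝ, 0 ≤ c ∧ ∀ v : ℕ,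
      (∑ m ∈ (hVfin v).toFinset, ((B ∩ (D m : Set ℕ)).ncard : ℝ)) ≤ c + η * v := by
    intro η hη
    obtain ⟨a, ha⟩ := exists_pow_lt_of_lt_one (half_pos hη) (by norm_num : (1 / 2 : ℝ) < 1)
    have hB' : Tendsto (fun j => ρ j * (((B ∩ (D j : Set ℕ)).ncard : ℝ) / ((D j).card : ℝ)))
      cofinite (𝓝 0) := hB
    have hfinE : {j | ¬ (ρ j * (((B ∩ (D j : Set ℕ)).ncard : ℝ) / ((D j).card : ℝ)) <
        (1 / 2) ^ a * (η / 2))}.Finite :=
      hB'.eventually (gt_mem_nhds (mul_pos (hhalf a) (half_pos hη)))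
    set E := hfinE.toFinset with hE
    refine ⟨∑ j ∈ E, ((D j).card : ℝ), Finset.sum_nonneg fun _ _ => by positivity, fun v => ?_⟩
    have hpt : ∀ m, ((B ∩ (D m : Set ℕ)).ncard : ℝ) ≤ (if a ≤ ℓ m then ((D m).card : ℝ) else 0) +
        (if m ∈ E then ((D m).card : ℝ) else 0) + η / 2 * (D m).card := by
      intro m
      have h0 := hle1 B m
      have h1 : 0 ≤ η / 2 * ((D m).card : ℝ) := by positivity
      have h2 : (0 : ℝ) ≤ if a ≤ ℓ m then ((D m).card : ℝ) else 0 := by split_ifs <;> positivity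
      have h3 : (0 : ℝ) ≤ if m ∈ E then ((D m).card : ℝ) else 0 := by split_ifs <;> positivity
      by_cases h4 : a ≤ ℓ m
      · rw [if_pos h4] at *
        linarith
      · by_cases h5 : m ∈ E
        · rw [if_pos h5] at *
          linarith
        · have h6 : ρ m * (((B ∩ (D m : Set ℕ)).ncard : ℝ) / ((D m).card : ℝ)) <
              (1 / 2) ^ a * (η / 2) := by
            by_contra h7
            exact h5 ((Set.Finite.mem_toFinset _).2 h7)
          have h7 : (1 / 2 : ℝ) ^ a ≤ ρ m :=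
            (pow_le_pow_of_le_one (by norm_num) (by norm_num) (le_of_not_ge h4)).trans (hℓ1 m)
          have h8 : (0 : ℝ) ≤ ((B ∩ (D m : Set ℕ)).ncard : ℝ) / ((D m).card : ℝ) := by positivity
          have h9 : ((B ∩ (D m : Set ℕ)).ncard : ℝ) / ((D m).card : ℝ) < η / 2 := by
            by_contra h10
            push Not at h10
            have h11 : (1 / 2 : ℝ) ^ a * (η / 2) ≤
                ρ m * (((B ∩ (D m : Set ℕ)).ncard : ℝ) / ((D m).card : ℝ)) :=
              mul_le_mul h7 h10 (by positivity) (hρ0 m).le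
            linarith
          rw [div_lt_iff₀ (hDR m)] at h9
          linarith
    have h1 : (∑ m ∈ (hVfin v).toFinset, (if a ≤ ℓ m then ((D m).card : ℝ) else 0)) ≤
        v * (1 / 2 : ℝ) ^ a := by
      rw [← Finset.sum_filter]; exact htail v a
    have h2 : (∑ m ∈ (hVfin v).toFinset, (if m ∈ E then ((D m).card : ℝ) else 0)) ≤
        ∑ j ∈ E, ((D j).card : ℝ) := by
      rw [← Finset.sum_filter]
      refine Finset.sum_le_sum_of_subset_of_nonneg ?_ (fun _ _ _ => by positivity)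
      intro m hm
      exact (Finset.mem_filter.1 hm).2
    have h3 := hall v
    have hv : (0 : ℝ) ≤ v := Nat.cast_nonneg _
    calc (∑ m ∈ (hVfin v).toFinset, ((B ∩ (D m : Set ℕ)).ncard : ℝ))
        ≤ ∑ m ∈ (hVfin v).toFinset, ((if a ≤ ℓ m then ((D m).card : ℝ) else 0) +
          (if m ∈ E then ((D m).card : ℝ) else 0) + η / 2 * (D m).card) :=
          Finset.sum_le_sum fun m _ => hpt m
      _ = (∑ m ∈ (hVfin v).toFinset, (if a ≤ ℓ m then ((D m).card : ℝ) else 0)) +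
          (∑ m ∈ (hVfin v).toFinset, (if m ∈ E then ((D m).card : ℝ) else 0)) +
          η / 2 * ∑ m ∈ (hVfin v).toFinset, ((D m).card : ℝ) := by
          rw [Finset.sum_add_distrib, Finset.sum_add_distrib, Finset.mul_sum]
      _ ≤ v * (η / 2) + ∑ j ∈ E, ((D j).card : ℝ) + η / 2 * v := by
          have h4 : (v : ℝ) * (1 / 2 : ℝ) ^ a ≤ v * (η / 2) := mul_le_mul_of_nonneg_left ha.le hv
          have h5 := mul_le_mul_of_nonneg_left h3 (half_pos hη).le
          linarith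
      _ = ∑ j ∈ E, ((D j).card : ℝ) + η * v := by ring
  show Tendsto _ _ _
  rw [Metric.tendsto_nhds]
  intro ε hε
  obtain ⟨a, ha⟩ := exists_pow_lt_of_lt_one hε (by norm_num : (1 / 2 : ℝ) < 1)
  set L : ℕ := ∑ i ∈ Finset.range (a + 1), Λ i with hL
  have hLpos : (0 : ℝ) < L := by
    have : 0 < L := by
      rw [hL]
      exact Finset.sum_pos (fun i _ => hΛpos i) ⟨0, Finset.mem_range.2 (by omega)⟩
    exact_mod_cast this
  obtain ⟨c, hc0, hc⟩ := hsmall (ε / (2 * L)) (by positivity)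
  obtain ⟨N₁, hN₁⟩ := exists_nat_gt (2 * c / ε)
  have hfin := H ε hε N₁
  filter_upwards [hfin.compl_mem_cofinite] with n hn
  have hdn : (0 : ℝ) ≤ (((φ ⁻¹' C') ∩ (D n : Set ℕ)).ncard : ℝ) / ((D n).card : ℝ) := by positivity
  rw [Real.dist_eq, sub_zero, abs_of_nonneg (mul_nonneg (hρ0 n).le hdn)]
  by_contra hge
  push Not at hge
  apply hn
  have hd1 : (((φ ⁻¹' C') ∩ (D n : Set ℕ)).ncard : ℝ) / ((D n).card : ℝ) ≤ 1 := by
    rw [div_le_one (hDR n)]; exact hle1 _ n
  have hρε : ε ≤ ρ n := hge.trans (mul_le_of_le_one_right (hρ0 n).le hd1)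
  have hln : ℓ n ≤ a := by
    by_contra h
    push Not at h
    have := hℓ2 n a h
    linarith
  have hVn : V n ≤ (D n).card * L := by
    refine Nat.mul_le_mul_left _ ?_
    rw [hL]
    exact Finset.single_le_sum (f := Λ) (fun i _ => Nat.zero_le _)
      (Finset.mem_range.2 (by omega))
  have h1 : (((φ ⁻¹' C') ∩ (D n : Set ℕ)).ncard : ℝ) ≤ c + ε / (2 * L) * (V n : ℝ) := by
    refine le_trans ?_ (hc (V n))
    exact_mod_cast hbound n
  have h2 : ε / (2 * L) * (V n : ℝ) ≤ ε / 2 * (D n).card := by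
    have h3 : (V n : ℝ) ≤ (D n).card * L := by exact_mod_cast hVn
    calc ε / (2 * L) * (V n : ℝ) ≤ ε / (2 * L) * ((D n).card * L) :=
          mul_le_mul_of_nonneg_left h3 (by positivity)
      _ = ε / 2 * (D n).card := by field_simp
  have h3 : ε * (D n).card ≤ (((φ ⁻¹' C') ∩ (D n : Set ℕ)).ncard : ℝ) := by
    have h4 : ε ≤ (((φ ⁻¹' C') ∩ (D n : Set ℕ)).ncard : ℝ) / ((D n).card : ℝ) :=
      hge.trans (mul_le_of_le_one_left hdn (hρ1 n))
    rwa [le_div_iff₀ (hDR n)] at h4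
  have h4 : ((D n).card : ℝ) ≤ 2 * c / ε := by
    rw [le_div_iff₀ hε]
    linarith
  exact ⟨hρε, by exact_mod_cast (h4.trans hN₁.le)⟩

end Run7.h157.EU
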