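import Pool.Agent.Run7.h157.EU.AllF
import Pool.Agent.Run7.h157.EU.GenSuf

set_option autoImplicit false

namespace Run7.h157.EU

open Filter Topology

/-- Every block is carried, up to `η`, by `R` levels (`R` depends only on `η`). -/
def FewScales (f : ℕ → ℝ) : Prop :=
  ∀ η : ℝ, 0 < η → ∃ R : ℕ, ∀ n : ℕ, ∃ T : Finset ℕ, T.card ≤ R ∧
    ∀ S : Finset ℕ, Disjoint S T → ∑ k ∈ S, (cnt f n k : ℝ) / 2 ^ k ≤ η

/-- The criterion: for every `ε` there is `K` such that for every `N` at most `K` pairs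
(block `n`, level `k`) have a number of points in `[N, 2N)` that is at least `ε 2^k`. -/
def Crit (f : ℕ → ℝ) : Prop :=
  ∀ ε : ℝ, 0 < ε → ∃ K : ℕ, ∀ N : ℕ, ∀ S : Finset (ℕ × ℕ),
    (∀ p ∈ S, ε * 2 ^ p.2 ≤ (cnt f p.1 p.2 : ℝ) ∧ N ≤ cnt f p.1 p.2 ∧ cnt f p.1 p.2 < 2 * N) →
      S.card ≤ K

section

variable {f : ℕ → ℝ}

open Classical in
/-- points of the block `n` and level `k` -/
noncomputable def Pn (hf : Good f) (n k : ℕ) : Finset ℕ :=
  (Dn hf n).filter (fun i => f i ≠ 0 ∧ lv f i = k)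

lemma mem_Pn (hf : Good f) (n k i : ℕ) : i ∈ Pn hf n k ↔ bk f i = n ∧ f i ≠ 0 ∧ lv f i = k := by
  classical
  rw [Pn, Finset.mem_filter, mem_Dn]

lemma cnt_eq (hf : Good f) (n k : ℕ) : cnt f n k = (Pn hf n k).card := by
  rw [cnt, ← Set.ncard_coe_finset]
  congr 1
  ext i
  simp only [Finset.mem_coe, mem_Pn]
  constructor
  · rintro ⟨h1, h2, h3⟩; exact ⟨h2, h1, h3⟩
  · rintro ⟨h1, h2, h3⟩; exact ⟨h2, h1, h3⟩

lemma piece_sum (hf : Good f) (A : Set ℕ) (n k : ℕ) :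
    ((A ∩ (Pn hf n k : Set ℕ)).ncard : ℝ) / 2 ^ (k + 1) ≤
      (∑ i ∈ Pn hf n k, A.indicator f i) / 2 ^ (n + 1) ∧
    (∑ i ∈ Pn hf n k, A.indicator f i) / 2 ^ (n + 1) ≤
      ((A ∩ (Pn hf n k : Set ℕ)).ncard : ℝ) / 2 ^ k := by
  classical
  have h1 : ∑ i ∈ Pn hf n k, A.indicator f i = ∑ i ∈ (Pn hf n k).filter (fun i => i ∈ A), f i := by
    rw [Finset.sum_filter]
    refine Finset.sum_congr rfl fun i _ => ?_
    by_cases h : i ∈ A
    · rw [Set.indicator_of_mem h, if_pos h]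
    · rw [Set.indicator_of_notMem h, if_neg h]
  have h2 : A ∩ (Pn hf n k : Set ℕ) = (((Pn hf n k).filter (fun i => i ∈ A) : Finset ℕ) : Set ℕ) := by
    ext x; simp [and_comm]
  rw [h1, h2, Set.ncard_coe_finset]
  have hspec : ∀ i ∈ (Pn hf n k).filter (fun i => i ∈ A),
      (2 : ℝ) ^ (n + 1) / 2 ^ (k + 1) ≤ f i ∧ f i ≤ 2 ^ (n + 1) / 2 ^ k := by
    intro i hi
    have h3 := (mem_Pn hf n k i).1 (Finset.mem_filter.1 hi).1
    have h4 := lv_spec hf i h3.2.1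
    rw [h3.1, h3.2.2] at h4
    constructor
    · rw [div_le_iff₀ (by positivity)]; exact h4.2.le
    · rw [le_div_iff₀ (by positivity)]; exact h4.1
  have hp : (0 : ℝ) < 2 ^ (n + 1) := by positivity
  constructor
  · have h5 := Finset.card_nsmul_le_sum _ f _ (fun i hi => (hspec i hi).1)
    rw [nsmul_eq_mul] at h5
    rw [le_div_iff₀ hp]
    calc _ = ((((Pn hf n k).filter (fun i => i ∈ A)).card : ℝ)) * (2 ^ (n + 1) / 2 ^ (k + 1)) := by
          ring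
      _ ≤ _ := h5
  · have h5 := Finset.sum_le_card_nsmul _ f _ (fun i hi => (hspec i hi).2)
    rw [nsmul_eq_mul] at h5
    rw [div_le_iff₀ hp]
    calc _ ≤ ((((Pn hf n k).filter (fun i => i ∈ A)).card : ℝ)) * (2 ^ (n + 1) / 2 ^ k) := h5
      _ = _ := by ring

lemma Pn_disj (hf : Good f) (n : ℕ) (S : Finset ℕ) :
    (S : Set ℕ).PairwiseDisjoint (Pn hf n) := by
  intro k _ k' _ hkk
  rw [Function.onFun, Finset.disjoint_left]
  intro i hi hi'
  exact hkk (((mem_Pn hf n k i).1 hi).2.2.symm.trans ((mem_Pn hf n k' i).1 hi').2.2)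

lemma ms_lo (hf : Good f) (A : Set ℕ) (n : ℕ) (S : Finset ℕ) :
    ∑ k ∈ S, ((A ∩ (Pn hf n k : Set ℕ)).ncard : ℝ) / 2 ^ (k + 1) ≤ ms hf A n := by
  classical
  refine (Finset.sum_le_sum fun k _ => (piece_sum hf A n k).1).trans ?_
  rw [← Finset.sum_div, ms]
  refine div_le_div_of_nonneg_right ?_ (by positivity)
  rw [← Finset.sum_biUnion (Pn_disj hf n S)]
  refine Finset.sum_le_sum_of_subset_of_nonneg ?_ (fun i _ _ => ind_nonneg hf A i)
  intro i hi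
  obtain ⟨k, _, hk⟩ := Finset.mem_biUnion.1 hi
  exact (mem_Dn hf n i).2 ((mem_Pn hf n k i).1 hk).1

lemma ms_hi (hf : Good f) (A : Set ℕ) (n : ℕ) :
    ms hf A n ≤ ∑ k ∈ (Dn hf n).image (lv f), ((A ∩ (Pn hf n k : Set ℕ)).ncard : ℝ) / 2 ^ k := by
  classical
  refine le_trans ?_ (Finset.sum_le_sum fun k _ => (piece_sum hf A n k).2)
  rw [← Finset.sum_div, ms]
  refine div_le_div_of_nonneg_right ?_ (by positivity)
  rw [← Finset.sum_biUnion (Pn_disj hf n _)]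
  refine le_of_eq (Finset.sum_subset ?_ ?_).symm
  · intro i hi
    obtain ⟨k, _, hk⟩ := Finset.mem_biUnion.1 hi
    exact (mem_Dn hf n i).2 ((mem_Pn hf n k i).1 hk).1
  · intro i hi hi'
    by_contra hne
    apply hi'
    have hfi : f i ≠ 0 := by
      intro h0
      apply hne
      by_cases h : i ∈ A
      · rw [Set.indicator_of_mem h, h0]
      · rw [Set.indicator_of_notMem h]
    exact Finset.mem_biUnion.2 ⟨lv f i, Finset.mem_image_of_mem _ hi,
      (mem_Pn hf n _ i).2 ⟨(mem_Dn hf n i).1 hi, hfi, rfl⟩⟩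

open Classical in
/-- the pieces -/
noncomputable def Pp (hf : Good f) : ℕ ⊕ (ℕ × ℕ) → Finset ℕ
  | Sum.inl i => if f i = 0 then {i} else ∅
  | Sum.inr p => Pn hf p.1 p.2

/-- the weights -/
noncomputable def rh (hf : Good f) : ℕ ⊕ (ℕ × ℕ) → ℝ
  | Sum.inl i => (1 / 2) ^ i
  | Sum.inr p => ((Pn hf p.1 p.2).card : ℝ) / 2 ^ (p.2 + 1)

/-- the index type of the nonempty pieces -/
def Ix (hf : Good f) : Type := {p : ℕ ⊕ (ℕ × ℕ) // (Pp hf p).Nonempty}

instance (hf : Good f) : Countable (Ix hf) := by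
  unfold Ix; infer_instance

lemma Pp_inl (hf : Good f) (i x : ℕ) : x ∈ Pp hf (Sum.inl i) ↔ x = i ∧ f i = 0 := by
  classical
  by_cases h : f i = 0 <;> simp [Pp, h]

lemma Pp_inr (hf : Good f) (p : ℕ × ℕ) (x : ℕ) :
    x ∈ Pp hf (Sum.inr p) ↔ bk f x = p.1 ∧ f x ≠ 0 ∧ lv f x = p.2 := mem_Pn hf p.1 p.2 x

lemma Pp_disj (hf : Good f) (p q : ℕ ⊕ (ℕ × ℕ)) (h : p ≠ q) : Disjoint (Pp hf p) (Pp hf q) := by
  rw [Finset.disjoint_left]
  intro x hx hx'
  rcases p with i | p <;> rcases q with j | q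
  · rw [Pp_inl] at hx hx'
    exact h (by rw [← hx.1, ← hx'.1])
  · rw [Pp_inl] at hx
    rw [Pp_inr] at hx'
    exact hx'.2.1 (hx.1 ▸ hx.2)
  · rw [Pp_inr] at hx
    rw [Pp_inl] at hx'
    exact hx.2.1 (hx'.1 ▸ hx'.2)
  · rw [Pp_inr] at hx hx'
    apply h
    rw [Prod.ext (hx.1.symm.trans hx'.1) (hx.2.2.symm.trans hx'.2.2)]

lemma Pp_cov (hf : Good f) (x : ℕ) : ∃ p, x ∈ Pp hf p := by
  by_cases h : f x = 0
  · exact ⟨Sum.inl x, (Pp_inl hf x x).2 ⟨rfl, h⟩⟩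
  · exact ⟨Sum.inr (bk f x, lv f x), (Pp_inr hf _ x).2 ⟨rfl, h, rfl⟩⟩

lemma rh_pos (hf : Good f) (j : Ix hf) : 0 < rh hf j.1 := by
  rcases j with ⟨i | p, hj⟩
  · simp only [rh]; positivity
  · have : 0 < (Pn hf p.1 p.2).card := Finset.card_pos.2 hj
    simp only [rh]
    positivity

lemma rh_le_one (hf : Good f) (p : ℕ ⊕ (ℕ × ℕ)) : rh hf p ≤ 1 := by
  rcases p with i | p
  · simp only [rh]
    exact pow_le_one₀ (by norm_num) (by norm_num)
  · have h1 := ms_lo hf Set.univ p.1 {p.2}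
    rw [Finset.sum_singleton, Set.univ_inter, Set.ncard_coe_finset] at h1
    exact h1.trans (ms_le_one hf _ _)

lemma half_fin (ε : ℝ) (hε : 0 < ε) : {i : ℕ | ε ≤ (1 / 2 : ℝ) ^ i}.Finite := by
  obtain ⟨a, ha⟩ := exists_pow_lt_of_lt_one hε (by norm_num : (1 / 2 : ℝ) < 1)
  refine (Set.finite_Iio a).subset (fun i hi => ?_)
  by_contra hge
  have h1 : a ≤ i := by simpa using hge
  have h2 : (1 / 2 : ℝ) ^ i ≤ (1 / 2) ^ a := pow_le_pow_of_le_one (by norm_num) (by norm_num) h1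
  have h3 : ε ≤ (1 / 2 : ℝ) ^ i := hi
  linarith

lemma Ix_H (hf : Good f) (ε : ℝ) (hε : 0 < ε) (N : ℕ) :
    {j : Ix hf | ε ≤ rh hf j.1 ∧ (Pp hf j.1).card ≤ N}.Finite := by
  classical
  have hZ : {i : ℕ | ¬ (f i / ∑ j ∈ Finset.range (i + 1), f j < ε / (N + 1))}.Finite := by
    have h1 := hf.2.2.eventually (gt_mem_nhds (show (0 : ℝ) < ε / (N + 1) by positivity))
    rw [← Nat.cofinite_eq_atTop] at h1
    exact h1
  have hfin : ((Sum.inl '' {i : ℕ | ε ≤ (1 / 2 : ℝ) ^ i}) ∪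
      ((fun i => (Sum.inr (bk f i, lv f i) : ℕ ⊕ (ℕ × ℕ))) ''
        {i : ℕ | ¬ (f i / ∑ j ∈ Finset.range (i + 1), f j < ε / (N + 1))})).Finite :=
    ((half_fin ε hε).image _).union (hZ.image _)
  refine (hfin.preimage (Subtype.val_injective.injOn)).subset ?_
  rintro ⟨p, hp⟩ ⟨h1, h2⟩
  refine Set.mem_preimage.2 ?_
  rcases p with i | p
  · left
    exact ⟨i, h1, rfl⟩
  · right
    obtain ⟨i, hi⟩ := hp
    have hi' := (Pp_inr hf p i).1 hi
    refine ⟨i, ?_, ?_⟩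
    · show ¬ (f i / PS f i < ε / (N + 1))
      have hfpos : 0 < f i := lt_of_le_of_ne (hf.1 i) (Ne.symm hi'.2.1)
      have hPS : 0 < PS f i := hfpos.trans_le (le_PS hf i)
      have h3 := (lv_spec hf i hi'.2.1).2
      have h4 := PS_lt f i
      rw [hi'.1] at h3 h4
      rw [hi'.2.2] at h3
      have h5 : ε ≤ ((Pn hf p.1 p.2).card : ℝ) / 2 ^ (p.2 + 1) := h1
      have h6 : ((Pn hf p.1 p.2).card : ℝ) ≤ N := by
        have : (Pn hf p.1 p.2).card ≤ N := h2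
        exact_mod_cast this
      rw [not_lt, div_le_div_iff₀ (by positivity) hPS]
      rw [le_div_iff₀ (by positivity)] at h5
      have h7 : ε * 2 ^ (p.2 + 1) ≤ N := h5.trans h6
      have h8 : ε * 2 ^ (p.1 + 1) ≤ ε * (f i * 2 ^ (p.2 + 1)) := mul_le_mul_of_nonneg_left h3.le hε.le
      have h9 : ε * (f i * 2 ^ (p.2 + 1)) ≤ f i * N := by
        calc ε * (f i * 2 ^ (p.2 + 1)) = f i * (ε * 2 ^ (p.2 + 1)) := by ring
          _ ≤ f i * N := mul_le_mul_of_nonneg_left h7 hfpos.le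
      have h10 : ε * PS f i ≤ ε * 2 ^ (p.1 + 1) := mul_le_mul_of_nonneg_left h4.le hε.le
      nlinarith
    · show (Sum.inr (bk f i, lv f i) : ℕ ⊕ (ℕ × ℕ)) = Sum.inr p
      rw [hi'.1, hi'.2.2]

lemma rh_dens (hf : Good f) (A : Set ℕ) (p : ℕ × ℕ) (hp : (Pp hf (Sum.inr p)).Nonempty) :
    rh hf (Sum.inr p) * (((A ∩ (Pp hf (Sum.inr p) : Set ℕ)).ncard : ℝ) /
      ((Pp hf (Sum.inr p)).card : ℝ)) =
      ((A ∩ (Pn hf p.1 p.2 : Set ℕ)).ncard : ℝ) / 2 ^ (p.2 + 1) := by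
  have hc : (0 : ℝ) < ((Pn hf p.1 p.2).card : ℝ) := by exact_mod_cast Finset.card_pos.2 hp
  show ((Pn hf p.1 p.2).card : ℝ) / 2 ^ (p.2 + 1) * (((A ∩ (Pn hf p.1 p.2 : Set ℕ)).ncard : ℝ) /
    ((Pn hf p.1 p.2).card : ℝ)) = _
  field_simp

lemma Ix_I1 (hf : Good f) (A : Set ℕ)
    (h : Tendsto (fun j : Ix hf => ((A ∩ (Pp hf j.1 : Set ℕ)).ncard : ℝ) / ((Pp hf j.1).card : ℝ))
      cofinite (𝓝 0)) : A ∈ EU f := by
  classical
  rw [EU_iff hf, ← Nat.cofinite_eq_atTop, Metric.tendsto_nhds]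
  intro ε hε
  have hfin : {j : Ix hf | ¬ (((A ∩ (Pp hf j.1 : Set ℕ)).ncard : ℝ) / ((Pp hf j.1).card : ℝ) <
      ε / 4)}.Finite := h.eventually (gt_mem_nhds (by positivity))
  have hfin2 : ((fun j : Ix hf => Sum.elim (fun i => i) (fun p : ℕ × ℕ => p.1) j.1) ''
      {j : Ix hf | ¬ (((A ∩ (Pp hf j.1 : Set ℕ)).ncard : ℝ) / ((Pp hf j.1).card : ℝ) <
      ε / 4)}).Finite := hfin.image _
  filter_upwards [hfin2.compl_mem_cofinite] with n hn
  rw [Real.dist_eq, sub_zero, abs_of_nonneg (ms_nonneg hf A n)]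
  have hk : ∀ k ∈ (Dn hf n).image (lv f), ((A ∩ (Pn hf n k : Set ℕ)).ncard : ℝ) / 2 ^ k ≤
      (ε / 2) * (((Pn hf n k).card : ℝ) / 2 ^ (k + 1)) := by
    intro k _
    rcases (Pn hf n k).eq_empty_or_nonempty with he | hne
    · rw [he]; simp
    · have hc : (0 : ℝ) < ((Pn hf n k).card : ℝ) := by exact_mod_cast Finset.card_pos.2 hne
      have h1 : ((A ∩ (Pn hf n k : Set ℕ)).ncard : ℝ) / ((Pn hf n k).card : ℝ) < ε / 4 := by
        by_contra hcon
        exact hn ⟨⟨Sum.inr (n, k), hne⟩, hcon, rfl⟩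
      rw [div_lt_iff₀ hc] at h1
      calc ((A ∩ (Pn hf n k : Set ℕ)).ncard : ℝ) / 2 ^ k ≤ (ε / 4 * (Pn hf n k).card) / 2 ^ k :=
            div_le_div_of_nonneg_right h1.le (by positivity)
        _ = (ε / 2) * (((Pn hf n k).card : ℝ) / 2 ^ (k + 1)) := by
            rw [pow_succ]; field_simp; ring
  have h2 := (ms_hi hf A n).trans (Finset.sum_le_sum hk)
  rw [← Finset.mul_sum] at h2
  have h3 := ms_lo hf Set.univ n ((Dn hf n).image (lv f))
  simp only [Set.univ_inter, Set.ncard_coe_finset] at h3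
  have h4 := h3.trans (ms_le_one hf Set.univ n)
  have h5 : (ε / 2) * ∑ k ∈ (Dn hf n).image (lv f), (((Pn hf n k).card : ℝ) / 2 ^ (k + 1)) ≤
      (ε / 2) * 1 := mul_le_mul_of_nonneg_left h4 (by positivity)
  linarith

lemma Ix_I2 (hf : Good f) : EU f ⊆ Pc (fun j : Ix hf => Pp hf j.1) (fun j => rh hf j.1) := by
  classical
  intro A hA
  rw [EU_iff hf] at hA
  show Tendsto _ _ _
  rw [Metric.tendsto_nhds]
  intro ε hε
  have hn : {n : ℕ | ¬ (ms hf A n < ε)}.Finite := by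
    have h1 := hA.eventually (gt_mem_nhds hε)
    rw [← Nat.cofinite_eq_atTop] at h1
    exact h1
  have hfin : ((Sum.inl '' {i : ℕ | ε ≤ (1 / 2 : ℝ) ^ i}) ∪
      ⋃ n ∈ {n : ℕ | ¬ (ms hf A n < ε)}, ((fun k => (Sum.inr (n, k) : ℕ ⊕ (ℕ × ℕ))) ''
        (((Dn hf n).image (lv f) : Finset ℕ) : Set ℕ))).Finite :=
    ((half_fin ε hε).image _).union (hn.biUnion fun n _ => (Finset.finite_toSet _).image _)
  have hfin2 := hfin.preimage (f := fun j : Ix hf => j.1) (Subtype.val_injective.injOn)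
  filter_upwards [hfin2.compl_mem_cofinite] with j hj
  have hnn : 0 ≤ rh hf j.1 * (((A ∩ (Pp hf j.1 : Set ℕ)).ncard : ℝ) / ((Pp hf j.1).card : ℝ)) :=
    mul_nonneg (rh_pos hf j).le (by positivity)
  rw [Real.dist_eq, sub_zero, abs_of_nonneg hnn]
  by_contra hge
  push Not at hge
  apply hj
  rcases j with ⟨i | p, hp⟩
  · left
    refine ⟨i, ?_, rfl⟩
    have hd1 : ((A ∩ (Pp hf (Sum.inl i) : Set ℕ)).ncard : ℝ) / ((Pp hf (Sum.inl i)).card : ℝ) ≤ 1 := by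
      have hc : (0 : ℝ) < ((Pp hf (Sum.inl i)).card : ℝ) := by exact_mod_cast Finset.card_pos.2 hp
      rw [div_le_one hc]
      have := Set.ncard_le_ncard (Set.inter_subset_right (s := A) (t := (Pp hf (Sum.inl i) : Set ℕ)))
        (Finset.finite_toSet _)
      rw [Set.ncard_coe_finset] at this
      exact_mod_cast this
    exact hge.trans (mul_le_of_le_one_right (by simp only [rh]; positivity) hd1)
  · right
    have h1 := rh_dens hf A p hp
    have h2 := ms_lo hf A p.1 {p.2}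
    rw [Finset.sum_singleton] at h2
    have h3 : ε ≤ ms hf A p.1 := by
      refine hge.trans ?_
      exact (le_of_eq h1).trans h2
    obtain ⟨x, hx⟩ := hp
    have hx' := (Pp_inr hf p x).1 hx
    refine Set.mem_biUnion (show p.1 ∈ {n : ℕ | ¬ (ms hf A n < ε)} from not_lt.2 h3) ?_
    exact ⟨p.2, Finset.mem_coe.2 (Finset.mem_image.2 ⟨x, (mem_Dn hf _ _).2 hx'.1, hx'.2.2⟩), rfl⟩

lemma Ix_I3 (hf : Good f) (hs : FewScales f) :
    Pc (fun j : Ix hf => Pp hf j.1) (fun j => rh hf j.1) ⊆ EU f := by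
  classical
  intro A hA
  have hA' : Tendsto (fun j : Ix hf => rh hf j.1 * (((A ∩ (Pp hf j.1 : Set ℕ)).ncard : ℝ) /
    ((Pp hf j.1).card : ℝ))) cofinite (𝓝 0) := hA
  rw [EU_iff hf, ← Nat.cofinite_eq_atTop, Metric.tendsto_nhds]
  intro ε hε
  obtain ⟨R, hR⟩ := hs (ε / 4) (by positivity)
  have hδ : 0 < ε / (8 * (R + 1)) := by positivity
  have hfin : {j : Ix hf | ¬ (rh hf j.1 * (((A ∩ (Pp hf j.1 : Set ℕ)).ncard : ℝ) /
    ((Pp hf j.1).card : ℝ)) < ε / (8 * (R + 1)))}.Finite := hA'.eventually (gt_mem_nhds hδ)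
  have hfin2 : ((fun j : Ix hf => Sum.elim (fun i => i) (fun p : ℕ × ℕ => p.1) j.1) ''
      {j : Ix hf | ¬ (rh hf j.1 * (((A ∩ (Pp hf j.1 : Set ℕ)).ncard : ℝ) /
    ((Pp hf j.1).card : ℝ)) < ε / (8 * (R + 1)))}).Finite := hfin.image _
  filter_upwards [hfin2.compl_mem_cofinite] with n hn
  rw [Real.dist_eq, sub_zero, abs_of_nonneg (ms_nonneg hf A n)]
  obtain ⟨T, hT1, hT2⟩ := hR n
  have ha : ∀ k, ((A ∩ (Pn hf n k : Set ℕ)).ncard : ℝ) / 2 ^ k ≤ ε / (4 * (R + 1)) := by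
    intro k
    rcases (Pn hf n k).eq_empty_or_nonempty with he | hne
    · rw [he]; simp; positivity
    · have h1 : ¬ ¬ (rh hf (Sum.inr (n, k)) * (((A ∩ (Pp hf (Sum.inr (n, k)) : Set ℕ)).ncard : ℝ) /
          ((Pp hf (Sum.inr (n, k))).card : ℝ)) < ε / (8 * (R + 1))) := by
        intro hcon
        exact hn ⟨⟨Sum.inr (n, k), hne⟩, hcon, rfl⟩
      rw [not_not, rh_dens hf A (n, k) hne] at h1
      have h2 : ((A ∩ (Pn hf n k : Set ℕ)).ncard : ℝ) / 2 ^ (k + 1) < ε / (8 * (R + 1)) := h1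
      have h3 : ((A ∩ (Pn hf n k : Set ℕ)).ncard : ℝ) / 2 ^ k =
          2 * (((A ∩ (Pn hf n k : Set ℕ)).ncard : ℝ) / 2 ^ (k + 1)) := by
        rw [pow_succ]; field_simp
      have h4 : ε / (4 * (R + 1)) = 2 * (ε / (8 * ((R : ℝ) + 1))) := by field_simp; ring
      rw [h3, h4]; linarith
  set Kn := (Dn hf n).image (lv f) with hKn
  have hsplit : ∑ k ∈ Kn, ((A ∩ (Pn hf n k : Set ℕ)).ncard : ℝ) / 2 ^ k =
      ∑ k ∈ Kn.filter (fun k => k ∈ T), ((A ∩ (Pn hf n k : Set ℕ)).ncard : ℝ) / 2 ^ k +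
      ∑ k ∈ Kn.filter (fun k => ¬ k ∈ T), ((A ∩ (Pn hf n k : Set ℕ)).ncard : ℝ) / 2 ^ k :=
    (Finset.sum_filter_add_sum_filter_not _ _ _).symm
  have h1 : ∑ k ∈ Kn.filter (fun k => k ∈ T), ((A ∩ (Pn hf n k : Set ℕ)).ncard : ℝ) / 2 ^ k ≤
      ε / 4 := by
    refine (Finset.sum_le_card_nsmul _ _ _ (fun k _ => ha k)).trans ?_
    rw [nsmul_eq_mul]
    have h2 : (((Kn.filter (fun k => k ∈ T)).card : ℕ) : ℝ) ≤ R + 1 := by
      have h3 : (Kn.filter (fun k => k ∈ T)).card ≤ R := by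
        refine le_trans (Finset.card_le_card ?_) hT1
        intro k hk
        exact (Finset.mem_filter.1 hk).2
      have h4 : (((Kn.filter (fun k => k ∈ T)).card : ℕ) : ℝ) ≤ R := by exact_mod_cast h3
      linarith
    calc _ ≤ ((R : ℝ) + 1) * (ε / (4 * (R + 1))) := mul_le_mul_of_nonneg_right h2 (by positivity)
      _ = ε / 4 := by field_simp
  have h2 : ∑ k ∈ Kn.filter (fun k => ¬ k ∈ T), ((A ∩ (Pn hf n k : Set ℕ)).ncard : ℝ) / 2 ^ k ≤
      ε / 4 := by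
    refine le_trans (Finset.sum_le_sum fun k _ => ?_) (hT2 (Kn.filter (fun k => ¬ k ∈ T)) ?_)
    · rw [cnt_eq hf]
      refine div_le_div_of_nonneg_right ?_ (by positivity)
      have := Set.ncard_le_ncard (Set.inter_subset_right (s := A) (t := (Pn hf n k : Set ℕ)))
        (Finset.finite_toSet _)
      rw [Set.ncard_coe_finset] at this
      exact_mod_cast this
    · rw [Finset.disjoint_left]
      intro k hk
      exact (Finset.mem_filter.1 hk).2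
  have h3 := ms_hi hf A n
  rw [hsplit] at h3
  linarith

/-- Necessity, for every Erdős–Ulam ideal. -/
theorem crit_of_copy (hf : Good f) (h : HasCopy (EU f)) : Crit f := by
  classical
  intro ε hε
  obtain ⟨K, hK⟩ := nec_gen (fun j : Ix hf => Pp hf j.1) (fun j => rh hf j.1) (EU f)
    (fun m n hmn => Pp_disj hf m.1 n.1 (fun h => hmn (Subtype.ext h)))
    (fun j => (rh_pos hf j).le) (Ix_H hf) (Ix_I1 hf) (Ix_I2 hf) h (ε / 2) (by positivity)
  refine ⟨K, fun N S hS => ?_⟩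
  have hne : ∀ p ∈ S, (Pp hf (Sum.inr p)).Nonempty := by
    intro p hp
    have h1 := (hS p hp).2
    rw [cnt_eq hf] at h1
    exact Finset.card_pos.1 (show 0 < (Pn hf p.1 p.2).card by omega)
  set W : Set (Ix hf) := {j | ε / 2 ≤ rh hf j.1 ∧ N ≤ (Pp hf j.1).card ∧ (Pp hf j.1).card < 2 * N}
    with hW
  have hWfin : W.Finite := (Ix_H hf (ε / 2) (by positivity) (2 * N)).subset
    (fun j hj => ⟨hj.1, hj.2.2.le⟩)
  have h1 : S.card = (S.attach.image (fun p => (⟨Sum.inr p.1, hne p.1 p.2⟩ : Ix hf))).card := by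
    rw [Finset.card_image_of_injective, Finset.card_attach]
    intro p q hpq
    have h2 := congrArg Subtype.val hpq
    exact Subtype.ext (Sum.inr_injective h2)
  rw [h1, ← Set.ncard_coe_finset]
  refine (Set.ncard_le_ncard ?_ hWfin).trans (hK N)
  intro j hj
  rw [Finset.coe_image] at hj
  obtain ⟨p, _, rfl⟩ := hj
  have h3 := hS p.1 p.2
  rw [cnt_eq hf] at h3
  refine ⟨?_, h3.2.1, h3.2.2⟩
  show ε / 2 ≤ ((Pn hf p.1.1 p.1.2).card : ℝ) / 2 ^ (p.1.2 + 1)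
  rw [le_div_iff₀ (by positivity), pow_succ]
  have := h3.1
  linarith

/-- Sufficiency, for blocks with few scales. -/
theorem copy_of_crit (hf : Good f) (hs : FewScales f) (hc : Crit f) : HasCopy (EU f) := by
  classical
  have hEU : EU f = Pc (fun j : Ix hf => Pp hf j.1) (fun j => rh hf j.1) :=
    Set.Subset.antisymm (Ix_I2 hf) (Ix_I3 hf hs)
  rw [hEU]
  refine suf_gen _ _ (fun m n hmn => Pp_disj hf m.1 n.1 (fun h => hmn (Subtype.ext h)))
    (fun x => ?_) (fun j => j.2) (rh_pos hf) (fun j => rh_le_one hf j.1) (Ix_H hf) ?_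
  · obtain ⟨p, hp⟩ := Pp_cov hf x
    exact ⟨⟨p, ⟨x, hp⟩⟩, hp⟩
  · intro ε hε
    obtain ⟨K, hK⟩ := hc ε hε
    refine ⟨(half_fin ε hε).toFinset.card + K, fun N => ?_⟩
    set W : Set (Ix hf) := {j | ε ≤ rh hf j.1 ∧ N ≤ (Pp hf j.1).card ∧ (Pp hf j.1).card < 2 * N}
      with hW
    have hWfin : W.Finite := (Ix_H hf ε hε (2 * N)).subset (fun j hj => ⟨hj.1, hj.2.2.le⟩)
    set S : Finset (ℕ × ℕ) := hWfin.toFinset.biUnion
      (fun j => Sum.elim (fun _ => (∅ : Finset (ℕ × ℕ))) (fun p => {p}) j.1) with hS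
    have hSK : S.card ≤ K := by
      refine hK N S (fun p hp => ?_)
      obtain ⟨j, hj, hpj⟩ := Finset.mem_biUnion.1 hp
      have hj' : j ∈ W := (Set.Finite.mem_toFinset hWfin).1 hj
      rcases j with ⟨i | q, hq⟩
      · simp at hpj
      · have hpq : p = q := by simpa using hpj
        subst hpq
        rw [cnt_eq hf]
        refine ⟨?_, hj'.2.1, hj'.2.2⟩
        have h1 : ε ≤ ((Pn hf p.1 p.2).card : ℝ) / 2 ^ (p.2 + 1) := hj'.1
        rw [le_div_iff₀ (by positivity), pow_succ] at h1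
        have h2 : 0 < ε * 2 ^ p.2 := by positivity
        nlinarith
    have hsub : W ⊆ (fun j : Ix hf => j.1) ⁻¹'
        ((((half_fin ε hε).toFinset.image Sum.inl ∪ S.image Sum.inr : Finset (ℕ ⊕ (ℕ × ℕ)))) :
          Set (ℕ ⊕ (ℕ × ℕ))) := by
      intro j hj
      refine Set.mem_preimage.2 ?_
      have hjW : j ∈ hWfin.toFinset := (Set.Finite.mem_toFinset hWfin).2 hj
      rcases j with ⟨i | q, hq⟩
      · refine Finset.mem_coe.2 (Finset.mem_union_left _ (Finset.mem_image_of_mem _ ?_))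
        exact (Set.Finite.mem_toFinset _).2 hj.1
      · refine Finset.mem_coe.2 (Finset.mem_union_right _ (Finset.mem_image_of_mem _ ?_))
        exact Finset.mem_biUnion.2 ⟨_, hjW, by simp⟩
    have h1 : W.ncard ≤ ((((half_fin ε hε).toFinset.image Sum.inl ∪ S.image Sum.inr :
        Finset (ℕ ⊕ (ℕ × ℕ)))) : Set (ℕ ⊕ (ℕ × ℕ))).ncard := by
      refine Set.ncard_le_ncard_of_injOn (fun j : Ix hf => j.1) (fun j hj => hsub hj)
        (Subtype.val_injective.injOn) (Finset.finite_toSet _)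
    rw [Set.ncard_coe_finset] at h1
    refine h1.trans ((Finset.card_union_le _ _).trans ?_)
    exact Nat.add_le_add Finset.card_image_le (Finset.card_image_le.trans hSK)

end

end Run7.h157.EU
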