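import Pool.Agent.Run7.h157.EU.Defs

set_option autoImplicit false

namespace Run7.h157.EU

open Filter Topology

/-- partial sums `F(i) = f(0) + … + f(i)` -/
noncomputable def PS (f : ℕ → ℝ) (i : ℕ) : ℝ := ∑ j ∈ Finset.range (i + 1), f j

/-- the block of the point `i`: the number `n` with `2^n ≤ F(i) < 2^(n+1)` (and `0` if
`F(i) < 1`). -/
noncomputable def bk (f : ℕ → ℝ) (i : ℕ) : ℕ := Nat.log 2 ⌊PS f i⌋₊

/-- the level of the point `i`: the number `k` with `2^k ≤ 2^(n+1) / f(i) < 2^(k+1)`, where `n` is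
the block of `i` (used only if `f i ≠ 0`). -/
noncomputable def lv (f : ℕ → ℝ) (i : ℕ) : ℕ := Nat.log 2 ⌊2 ^ (bk f i + 1) / f i⌋₊

/-- the number of points of the block `n` with level `k`. -/
noncomputable def cnt (f : ℕ → ℝ) (n k : ℕ) : ℕ := {i | f i ≠ 0 ∧ bk f i = n ∧ lv f i = k}.ncard

section

variable {f : ℕ → ℝ}

lemma PS_mono (hf : Good f) : Monotone (PS f) := by
  intro m n hmn
  exact Finset.sum_le_sum_of_subset_of_nonneg (Finset.range_mono (by omega)) (fun i _ _ => hf.1 i)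

lemma PS_nonneg (hf : Good f) (i : ℕ) : 0 ≤ PS f i := Finset.sum_nonneg fun j _ => hf.1 j

lemma le_PS (hf : Good f) (i : ℕ) : f i ≤ PS f i :=
  Finset.single_le_sum (f := f) (fun j _ => hf.1 j) (Finset.mem_range.2 (Nat.lt_succ_self i))

lemma PS_tend (hf : Good f) : Tendsto (PS f) atTop atTop :=
  hf.2.1.comp (tendsto_add_atTop_nat 1)

lemma PS_lt (f : ℕ → ℝ) (i : ℕ) : PS f i < 2 ^ (bk f i + 1) := by
  have h1 : ⌊PS f i⌋₊ < 2 ^ (bk f i + 1) := Nat.lt_pow_succ_log_self (by norm_num) _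
  have h2 : PS f i < ⌊PS f i⌋₊ + 1 := Nat.lt_floor_add_one _
  have h3 : ((⌊PS f i⌋₊ + 1 : ℕ) : ℝ) ≤ ((2 ^ (bk f i + 1) : ℕ) : ℝ) := by exact_mod_cast h1
  push_cast at h3
  linarith

lemma le_PS' (hf : Good f) (i : ℕ) (hi : 1 ≤ bk f i) : (2 : ℝ) ^ (bk f i) ≤ PS f i := by
  have h0 : ⌊PS f i⌋₊ ≠ 0 := by
    intro h
    rw [bk, h] at hi
    simp at hi
  have h1 : 2 ^ (bk f i) ≤ ⌊PS f i⌋₊ := Nat.pow_log_le_self 2 h0
  have h2 : ((2 ^ (bk f i) : ℕ) : ℝ) ≤ (⌊PS f i⌋₊ : ℝ) := by exact_mod_cast h1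
  push_cast at h2
  exact h2.trans (Nat.floor_le (PS_nonneg hf i))

lemma bk_mono (hf : Good f) : Monotone (bk f) := fun m n hmn =>
  Nat.log_mono_right (Nat.floor_le_floor (PS_mono hf hmn))

lemma bk_tend (hf : Good f) : Tendsto (bk f) atTop atTop := by
  rw [tendsto_atTop_atTop]
  intro n
  obtain ⟨i, hi⟩ := tendsto_atTop_atTop.1 (PS_tend hf) ((2 : ℝ) ^ (n + 1))
  refine ⟨i, fun a ha => ?_⟩
  have h1 := hi a ha
  have h2 := PS_lt f a
  by_contra hlt
  push Not at hlt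
  have h3 : (2 : ℝ) ^ (bk f a + 1) ≤ 2 ^ (n + 1) := pow_le_pow_right₀ (by norm_num) (by omega)
  linarith

lemma blk_fin (hf : Good f) (n : ℕ) : {i | bk f i ≤ n}.Finite := by
  obtain ⟨i, hi⟩ := tendsto_atTop_atTop.1 (bk_tend hf) (n + 1)
  refine (Set.finite_Iio i).subset (fun j hj => ?_)
  by_contra hge
  have h1 : i ≤ j := by simpa using hge
  have h2 := hi j h1
  have h3 : bk f j ≤ n := hj
  omega

lemma lv_spec (hf : Good f) (i : ℕ) (hi : f i ≠ 0) :
    f i * 2 ^ (lv f i) ≤ 2 ^ (bk f i + 1) ∧ (2 : ℝ) ^ (bk f i + 1) < f i * 2 ^ (lv f i + 1) := by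
  have hpos : 0 < f i := lt_of_le_of_ne (hf.1 i) (Ne.symm hi)
  have h1 : 1 ≤ (2 : ℝ) ^ (bk f i + 1) / f i := by
    rw [le_div_iff₀ hpos, one_mul]
    exact (le_PS hf i).trans (PS_lt f i).le
  have h0 : ⌊(2 : ℝ) ^ (bk f i + 1) / f i⌋₊ ≠ 0 := by
    have := Nat.floor_pos.2 h1
    omega
  have h2 : 2 ^ (lv f i) ≤ ⌊(2 : ℝ) ^ (bk f i + 1) / f i⌋₊ := Nat.pow_log_le_self 2 h0
  have h3 : ⌊(2 : ℝ) ^ (bk f i + 1) / f i⌋₊ < 2 ^ (lv f i + 1) :=
    Nat.lt_pow_succ_log_self (by norm_num) _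
  have h4 : ((2 ^ (lv f i) : ℕ) : ℝ) ≤ (⌊(2 : ℝ) ^ (bk f i + 1) / f i⌋₊ : ℝ) := by exact_mod_cast h2
  have h5 : ((⌊(2 : ℝ) ^ (bk f i + 1) / f i⌋₊ + 1 : ℕ) : ℝ) ≤ ((2 ^ (lv f i + 1) : ℕ) : ℝ) := by
    exact_mod_cast h3
  push_cast at h4 h5
  have h6 := Nat.floor_le (show (0 : ℝ) ≤ 2 ^ (bk f i + 1) / f i by positivity)
  have h7 := Nat.lt_floor_add_one ((2 : ℝ) ^ (bk f i + 1) / f i)
  constructor
  · have h8 := h4.trans h6
    rw [le_div_iff₀ hpos] at h8
    linarith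
  · have h8 := h7.trans_le h5
    rw [div_lt_iff₀ hpos] at h8
    linarith

/-- the block `n` as a finite set -/
noncomputable def Dn (hf : Good f) (n : ℕ) : Finset ℕ :=
  ((blk_fin hf n).subset (show {i | bk f i = n} ⊆ {i | bk f i ≤ n} from
    fun _ h => le_of_eq h)).toFinset

lemma mem_Dn (hf : Good f) (n i : ℕ) : i ∈ Dn hf n ↔ bk f i = n := by
  rw [Dn, Set.Finite.mem_toFinset]; rfl

/-- mass of `A` in the block `n` -/
noncomputable def ms (hf : Good f) (A : Set ℕ) (n : ℕ) : ℝ :=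
  (∑ i ∈ Dn hf n, A.indicator f i) / 2 ^ (n + 1)

lemma ind_nonneg (hf : Good f) (A : Set ℕ) (i : ℕ) : 0 ≤ A.indicator f i :=
  Set.indicator_nonneg (fun x _ => hf.1 x) i

lemma ms_nonneg (hf : Good f) (A : Set ℕ) (n : ℕ) : 0 ≤ ms hf A n :=
  div_nonneg (Finset.sum_nonneg fun i _ => ind_nonneg hf A i) (by positivity)

lemma sum_block_le (hf : Good f) (n : ℕ) : ∑ i ∈ Dn hf n, f i ≤ 2 ^ (n + 1) := by
  rcases (Dn hf n).eq_empty_or_nonempty with he | hne
  · rw [he]; simp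
  · have hm := (Dn hf n).max'_mem hne
    have h1 : ∑ i ∈ Dn hf n, f i ≤ PS f ((Dn hf n).max' hne) := by
      refine Finset.sum_le_sum_of_subset_of_nonneg ?_ (fun i _ _ => hf.1 i)
      intro i hi
      exact Finset.mem_range.2 (Nat.lt_succ_of_le ((Dn hf n).le_max' i hi))
    have h2 := PS_lt f ((Dn hf n).max' hne)
    rw [(mem_Dn hf n _).1 hm] at h2
    exact h1.trans h2.le

lemma ms_le_one (hf : Good f) (A : Set ℕ) (n : ℕ) : ms hf A n ≤ 1 := by
  rw [ms, div_le_one (by positivity)]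
  refine le_trans (Finset.sum_le_sum fun i _ => ?_) (sum_block_le hf n)
  exact Set.indicator_le_self' (fun x _ => hf.1 x) i

theorem EU_iff (hf : Good f) (A : Set ℕ) : A ∈ EU f ↔ Tendsto (ms hf A) atTop (𝓝 0) := by
  classical
  have hnumdef : ∀ x, ∑ i ∈ Finset.range (x + 1), f i = PS f x := fun x => rfl
  constructor
  · intro h
    have h' : Tendsto (fun n => (∑ i ∈ Finset.range n, A.indicator f i) /
      ∑ i ∈ Finset.range n, f i) atTop (𝓝 0) := h
    rw [Metric.tendsto_atTop] at h' ⊢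
    intro ε hε
    obtain ⟨p₀, hp₀⟩ := h' ε hε
    refine ⟨bk f p₀ + 1, fun n hn => ?_⟩
    rw [Real.dist_eq, sub_zero, abs_of_nonneg (ms_nonneg hf A n)]
    rcases (Dn hf n).eq_empty_or_nonempty with he | hne
    · rw [ms, he]; simpa using hε
    · set x := (Dn hf n).max' hne with hx
      have hbx : bk f x = n := (mem_Dn hf n _).1 ((Dn hf n).max'_mem hne)
      have hpx : p₀ ≤ x + 1 := by
        by_contra hlt
        have := bk_mono hf (show x ≤ p₀ by omega)
        omega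
      have h1 := hp₀ (x + 1) hpx
      have hPSpos : 0 < PS f x := by
        have h2 := le_PS' hf x (by omega)
        have : (0 : ℝ) < 2 ^ (bk f x) := by positivity
        linarith
      have hnn : 0 ≤ ∑ i ∈ Finset.range (x + 1), A.indicator f i :=
        Finset.sum_nonneg fun i _ => ind_nonneg hf A i
      rw [Real.dist_eq, sub_zero, hnumdef, abs_of_nonneg (div_nonneg hnn hPSpos.le)] at h1
      refine lt_of_le_of_lt ?_ h1
      have h3 : ∑ i ∈ Dn hf n, A.indicator f i ≤ ∑ i ∈ Finset.range (x + 1), A.indicator f i := by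
        refine Finset.sum_le_sum_of_subset_of_nonneg ?_ (fun i _ _ => ind_nonneg hf A i)
        intro i hi
        exact Finset.mem_range.2 (Nat.lt_succ_of_le ((Dn hf n).le_max' i hi))
      have h4 := PS_lt f x
      rw [hbx] at h4
      rw [ms]
      exact div_le_div₀ hnn h3 hPSpos h4.le
  · intro h
    show Tendsto _ _ _
    rw [Metric.tendsto_atTop]
    intro ε hε
    obtain ⟨m₀, hm₀⟩ := eventually_atTop.1 (h.eventually (gt_mem_nhds (show (0 : ℝ) < ε / 16 by positivity)))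
    obtain ⟨n₁, hn₁⟩ := pow_unbounded_of_one_lt (8 * 2 ^ m₀ / ε) (by norm_num : (1 : ℝ) < 2)
    obtain ⟨x₁, hx₁⟩ := tendsto_atTop_atTop.1 (bk_tend hf) (n₁ + 1)
    refine ⟨x₁ + 1, fun p hp => ?_⟩
    obtain ⟨x, rfl⟩ : ∃ x, p = x + 1 := ⟨p - 1, by omega⟩
    have hbx : n₁ + 1 ≤ bk f x := hx₁ x (by omega)
    have hden := le_PS' hf x (by omega)
    have hpb : (0 : ℝ) < 2 ^ (bk f x) := by positivity
    have hn0 : 0 ≤ ∑ i ∈ Finset.range (x + 1), A.indicator f i :=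
      Finset.sum_nonneg fun i _ => ind_nonneg hf A i
    rw [Real.dist_eq, sub_zero, hnumdef, abs_of_nonneg (div_nonneg hn0 (by linarith)),
      div_lt_iff₀ (by linarith)]
    have hsplit : ∑ i ∈ Finset.range (x + 1), A.indicator f i ≤
        ∑ m ∈ Finset.range (bk f x + 1), 2 ^ (m + 1) * ms hf A m := by
      have hmaps : ∀ i ∈ Finset.range (x + 1), bk f i ∈ Finset.range (bk f x + 1) := by
        intro i hi
        have := bk_mono hf (Nat.le_of_lt_succ (Finset.mem_range.1 hi))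
        exact Finset.mem_range.2 (by omega)
      rw [← Finset.sum_fiberwise_of_maps_to hmaps]
      refine Finset.sum_le_sum fun m _ => ?_
      rw [ms, mul_div_cancel₀ _ (by positivity)]
      refine Finset.sum_le_sum_of_subset_of_nonneg ?_ (fun i _ _ => ind_nonneg hf A i)
      intro i hi
      exact (mem_Dn hf m i).2 (Finset.mem_filter.1 hi).2
    have h3 : ∀ m ∈ Finset.range (bk f x + 1), (2 : ℝ) ^ (m + 1) * ms hf A m ≤
        2 * ((if m < m₀ then 2 ^ m else 0) + 2 ^ m * (ε / 16)) := by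
      intro m _
      have hp : (0 : ℝ) < 2 ^ m := by positivity
      rw [pow_succ]
      split_ifs with hlt
      · have := mul_le_mul_of_nonneg_left (ms_le_one hf A m) hp.le
        nlinarith
      · have := mul_le_mul_of_nonneg_left (hm₀ m (by omega)).le hp.le
        linarith
    have h4 : ∑ m ∈ Finset.range (bk f x + 1), (if m < m₀ then (2 : ℝ) ^ m else 0) ≤ 2 ^ m₀ := by
      rw [← Finset.sum_filter]
      calc _ ≤ ∑ m ∈ Finset.range m₀, (2 : ℝ) ^ m := by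
            refine Finset.sum_le_sum_of_subset_of_nonneg ?_ (fun _ _ _ => by positivity)
            intro m hm
            exact Finset.mem_range.2 (Finset.mem_filter.1 hm).2
        _ ≤ 2 ^ m₀ := by
            rw [geom_sum_eq (by norm_num)]
            norm_num
    have h5 : ∑ m ∈ Finset.range (bk f x + 1), (2 : ℝ) ^ m * (ε / 16) ≤ 2 * 2 ^ (bk f x) * (ε / 16) := by
      rw [← Finset.sum_mul]
      refine mul_le_mul_of_nonneg_right ?_ (by positivity)
      rw [geom_sum_eq (by norm_num), pow_succ]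
      norm_num
      linarith
    have h6 : ∑ i ∈ Finset.range (x + 1), A.indicator f i ≤
        2 * (2 ^ m₀ + 2 * 2 ^ (bk f x) * (ε / 16)) := by
      refine hsplit.trans ((Finset.sum_le_sum h3).trans ?_)
      rw [← Finset.mul_sum, Finset.sum_add_distrib]
      linarith
    have h7 : (2 : ℝ) ^ m₀ < ε / 8 * 2 ^ (bk f x) := by
      have h8 : (2 : ℝ) ^ n₁ ≤ 2 ^ (bk f x) := pow_le_pow_right₀ (by norm_num) (by omega)
      have h9 : 8 * 2 ^ m₀ / ε < 2 ^ (bk f x) := lt_of_lt_of_le hn₁ h8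
      rw [div_lt_iff₀ hε] at h9
      linarith
    have h10 : ε * 2 ^ (bk f x) ≤ ε * PS f x := mul_le_mul_of_nonneg_left hden hε.le
    nlinarith

end

end Run7.h157.EU
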