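import Mathlib

set_option autoImplicit false

namespace Run7.h157.EU

open Filter Topology

/-- An ideal `I` on `ω` is increasing-invariant: if `B ∈ I` and `|C ∩ n| ≤ |B ∩ n|` for every `n`,
then `C ∈ I`. -/
def IncInv (I : Set (Set ℕ)) : Prop :=
  ∀ B ∈ I, ∀ C : Set ℕ, (∀ n : ℕ, (C ∩ Set.Iio n).ncard ≤ (B ∩ Set.Iio n).ncard) → C ∈ I

/-- Some isomorphic copy `{φ[A] : A ∈ I}` of `I` (with `φ` a bijection of `ω`) is
increasing-invariant. -/
def HasCopy (I : Set (Set ℕ)) : Prop :=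
  ∃ φ : ℕ ≃ ℕ, IncInv ((fun A : Set ℕ => φ '' A) '' I)

/-- The family `EU_f`. -/
def EU (f : ℕ → ℝ) : Set (Set ℕ) :=
  {A | Tendsto (fun n => (∑ i ∈ Finset.range n, A.indicator f i) / ∑ i ∈ Finset.range n, f i)
    atTop (𝓝 0)}

/-- The conditions on `f` in the definition of an Erdős–Ulam ideal. -/
def Good (f : ℕ → ℝ) : Prop :=
  (∀ i, 0 ≤ f i) ∧ Tendsto (fun n => ∑ i ∈ Finset.range n, f i) atTop atTop ∧
    Tendsto (fun n => f n / ∑ i ∈ Finset.range (n + 1), f i) atTop (𝓝 0)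

/-- `Exh (sup μ_n)`, where `μ_n` is the uniform probability measure on the finite set `D n`. -/
def Unif (D : ℕ → Finset ℕ) : Set (Set ℕ) :=
  {A | Tendsto (fun n => ((A ∩ (D n : Set ℕ)).ncard : ℝ) / ((D n).card : ℝ)) atTop (𝓝 0)}

end Run7.h157.EU
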