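import Pool.Agent.Run7.h157.EU.Nec2

set_option autoImplicit false

namespace Run7.h157.EU

open Filter Topology

/-- `Exh (sup_j ρ_j ν_j)`, where `ν_j` is the uniform probability measure on the finite set `P j`. -/
def Pc {ι : Type} (P : ι → Finset ℕ) (ρ : ι → ℝ) : Set (Set ℕ) :=
  {A | Tendsto (fun j => ρ j * (((A ∩ (P j : Set ℕ)).ncard : ℝ) / ((P j).card : ℝ))) cofinite (𝓝 0)}

lemma family' {ι : Type} (D : ι → Finset ℕ) (hdis : ∀ m n, m ≠ n → Disjoint (D m) (D n))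
    (φ : ℕ ≃ ℕ)
    (k N : ℕ) (F : Finset ι) (hk : 2 ≤ k) (hkN : k ≤ N) (hF : 4 * k ≤ F.card)
    (hw : ∀ n ∈ F, N ≤ (D n).card ∧ (D n).card < 2 * N) :
    ∃ B C : Finset ℕ, ∃ n₀ ∈ F, (∀ x ∈ B, ∃ n ∈ F, x ∈ D n) ∧ C ⊆ D n₀ ∧
      (∀ n ∈ F, (B ∩ D n).card * k ≤ (D n).card) ∧ (D n₀).card ≤ 2 * C.card ∧
      C.card ≤ B.card ∧ ∀ b ∈ B, ∀ c ∈ C, φ b < φ c := by
  classical
  have hch : ∀ n : ι, ∃ B : Finset ℕ, n ∈ F → B ⊆ D n ∧ B.card = N / k ∧
      ∀ b ∈ B, ∀ c ∈ D n, c ∉ B → φ b < φ c := by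
    intro n
    by_cases hn : n ∈ F
    · obtain ⟨B, h1, h2, h3⟩ := leftmost φ (D n) (N / k)
        ((Nat.div_le_self N k).trans (hw n hn).1)
      exact ⟨B, fun _ => ⟨h1, h2, h3⟩⟩
    · exact ⟨∅, fun h => absurd h hn⟩
  choose Bn hBn using hch
  have ht1 : 1 ≤ N / k := (Nat.one_le_div_iff (by omega)).2 hkN
  have ht2 : N / k * k ≤ N := Nat.div_mul_le_self N k
  have ht3 : N < (N / k + 1) * k := by
    have := Nat.lt_div_mul_add (a := N) (b := k) (by omega)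
    linarith [this]
  have hFne : F.Nonempty := by rw [← Finset.card_pos]; omega
  obtain ⟨n₀, hn₀, hmax⟩ := Finset.exists_max_image F
    (fun n => (Bn n).sup (fun b => φ b)) hFne
  have hdisB : ∀ m ∈ F, ∀ n ∈ F, m ≠ n → Disjoint (Bn m) (Bn n) := by
    intro m hm n hn hmn
    exact Finset.disjoint_of_subset_left (hBn m hm).1
      (Finset.disjoint_of_subset_right (hBn n hn).1 (hdis m n hmn))
  have hcardB : (F.biUnion Bn).card = F.card * (N / k) := by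
    rw [Finset.card_biUnion hdisB, Finset.sum_congr rfl (fun n hn => (hBn n hn).2.1)]
    simp
  refine ⟨F.biUnion Bn, D n₀ \ Bn n₀, n₀, hn₀, ?_, Finset.sdiff_subset, ?_, ?_, ?_, ?_⟩
  · intro x hx
    obtain ⟨n, hn, hxn⟩ := Finset.mem_biUnion.1 hx
    exact ⟨n, hn, (hBn n hn).1 hxn⟩
  · intro n hn
    have : F.biUnion Bn ∩ D n ⊆ Bn n := by
      intro x hx
      rw [Finset.mem_inter, Finset.mem_biUnion] at hx
      obtain ⟨⟨m, hm, hxm⟩, hxn⟩ := hx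
      by_cases hmn : m = n
      · rwa [hmn] at hxm
      · exact absurd hxn (Finset.disjoint_left.1 (hdis m n hmn) ((hBn m hm).1 hxm))
    have h1 := Finset.card_le_card this
    rw [(hBn n hn).2.1] at h1
    have h2 := (hw n hn).1
    calc (F.biUnion Bn ∩ D n).card * k ≤ N / k * k := Nat.mul_le_mul_right k h1
      _ ≤ N := ht2
      _ ≤ (D n).card := h2
  · rw [Finset.card_sdiff_of_subset (hBn n₀ hn₀).1, (hBn n₀ hn₀).2.1]
    have h2 := (hw n₀ hn₀).1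
    have h3 : N / k * 2 ≤ N := (Nat.mul_le_mul_left _ hk).trans ht2
    omega
  · rw [hcardB]
    have h1 : (D n₀ \ Bn n₀).card ≤ (D n₀).card := Finset.card_le_card Finset.sdiff_subset
    have h2 := (hw n₀ hn₀).2
    have h3 : 4 * k * (N / k) ≤ F.card * (N / k) := Nat.mul_le_mul_right _ hF
    have h4 : (N / k + 1) * k ≤ 2 * (N / k) * k := Nat.mul_le_mul_right k (by omega)
    nlinarith [h3, h4, ht3, h1, h2]
  · intro b hb c hc
    obtain ⟨m, hm, hbm⟩ := Finset.mem_biUnion.1 hb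
    rw [Finset.mem_sdiff] at hc
    have h1 : φ b ≤ (Bn m).sup (fun b => φ b) := Finset.le_sup (f := fun b => φ b) hbm
    have h2 := hmax m hm
    have hne : (Bn n₀).Nonempty := by
      rw [← Finset.card_pos, (hBn n₀ hn₀).2.1]; omega
    obtain ⟨x, hx, hxs⟩ := Finset.exists_mem_eq_sup (Bn n₀) hne (fun b => φ b)
    have h3 := (hBn n₀ hn₀).2.2 x hx c hc.1 hc.2
    have h4 : (Bn n₀).sup (fun b => φ b) = φ x := hxs
    have h5 : (Bn m).sup (fun b => φ b) ≤ (Bn n₀).sup (fun b => φ b) := h2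
    omega

lemma far' {ι : Type} (D : ι → Finset ℕ) (ρ : ι → ℝ) (ε : ℝ)
    (H : ∀ N : ℕ, {j | ε ≤ ρ j ∧ (D j).card ≤ N}.Finite)
    (hbad : ∀ K : ℕ, ∃ N : ℕ,
      K < {n | ε ≤ ρ n ∧ N ≤ (D n).card ∧ (D n).card < 2 * N}.ncard) (L k : ℕ) (T : Finset ι) :
    ∃ N : ℕ, ∃ F : Finset ι, L ≤ N ∧ k ≤ F.card ∧ Disjoint T F ∧
      ∀ n ∈ F, ε ≤ ρ n ∧ N ≤ (D n).card ∧ (D n).card < 2 * N := by
  classical
  obtain ⟨N, hN⟩ := hbad ({j | ε ≤ ρ j ∧ (D j).card ≤ 2 * L}.ncard + T.card + k)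
  set W : Set ι := {n | ε ≤ ρ n ∧ N ≤ (D n).card ∧ (D n).card < 2 * N} with hW
  have hWfin : W.Finite := (H (2 * N)).subset (fun n hn => ⟨hn.1, hn.2.2.le⟩)
  have hLN : L ≤ N := by
    by_contra h
    have hsub : W ⊆ {j | ε ≤ ρ j ∧ (D j).card ≤ 2 * L} := by
      intro n hn
      have h3 : (D n).card < 2 * N := hn.2.2
      exact ⟨hn.1, by omega⟩
    have h4 := Set.ncard_le_ncard hsub (H (2 * L))
    omega
  refine ⟨N, hWfin.toFinset \ T, hLN, ?_, Finset.disjoint_sdiff, ?_⟩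
  · have h1 := Finset.le_card_sdiff T hWfin.toFinset
    have h3 := Set.ncard_eq_toFinset_card W hWfin
    omega
  · intro n hn
    exact (Set.Finite.mem_toFinset hWfin).1 (Finset.mem_sdiff.1 hn).1

lemma fams' {ι : Type} (D : ι → Finset ℕ) (ρ : ι → ℝ) (ε : ℝ)
    (H : ∀ N : ℕ, {j | ε ≤ ρ j ∧ (D j).card ≤ N}.Finite)
    (hbad : ∀ K : ℕ, ∃ N : ℕ,
      K < {n | ε ≤ ρ n ∧ N ≤ (D n).card ∧ (D n).card < 2 * N}.ncard) :
    ∃ (k N : ℕ → ℕ) (F : ℕ → Finset ι), (∀ i, 2 ≤ k i ∧ i ≤ k i ∧ k i ≤ N i ∧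
      4 * k i ≤ (F i).card ∧ ∀ n ∈ F i, ε ≤ ρ n ∧ N i ≤ (D n).card ∧ (D n).card < 2 * N i) ∧
      ∀ i j, i < j → Disjoint (F i) (F j) := by
  classical
  obtain ⟨f, hf1, hf2⟩ := exists_seq_of_forall_finset_exists
    (P := fun x : ℕ × ℕ × Finset ι => 2 ≤ x.1 ∧ x.1 ≤ x.2.1 ∧ 4 * x.1 ≤ x.2.2.card ∧
      ∀ n ∈ x.2.2, ε ≤ ρ n ∧ x.2.1 ≤ (D n).card ∧ (D n).card < 2 * x.2.1)
    (r := fun x y => x.1 < y.1 ∧ Disjoint x.2.2 y.2.2) (by
      intro s _
      set k := s.sup (fun x => x.1) + 2 with hk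
      obtain ⟨N, F, h1, h2, h3, h4⟩ := far' D ρ ε H hbad k (4 * k) (s.biUnion (fun x => x.2.2))
      refine ⟨(k, N, F), ⟨by show 2 ≤ k; omega, h1, h2, h4⟩, ?_⟩
      intro x hx
      have h5 : x.1 ≤ s.sup (fun x => x.1) := Finset.le_sup (f := fun x : ℕ × ℕ × Finset ι => x.1) hx
      refine ⟨by show x.1 < k; omega, ?_⟩
      exact Finset.disjoint_of_subset_left
        (Finset.subset_biUnion_of_mem (fun x : ℕ × ℕ × Finset ι => x.2.2) hx) h3)
  refine ⟨fun i => (f i).1, fun i => (f i).2.1, fun i => (f i).2.2, ?_, ?_⟩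
  · have hmono : StrictMono (fun i => (f i).1) := fun i j hij => (hf2 i j hij).1
    intro i
    exact ⟨(hf1 i).1, hmono.id_le i, (hf1 i).2.1, (hf1 i).2.2.1, (hf1 i).2.2.2⟩
  · intro i j hij
    exact (hf2 i j hij).2

theorem nec_gen {ι : Type} (D : ι → Finset ℕ) (ρ : ι → ℝ) (I : Set (Set ℕ))
    (hdis : ∀ m n, m ≠ n → Disjoint (D m) (D n)) (hρ0 : ∀ j, 0 ≤ ρ j)
    (H : ∀ ε : ℝ, 0 < ε → ∀ N : ℕ, {j | ε ≤ ρ j ∧ (D j).card ≤ N}.Finite)
    (hI1 : ∀ A : Set ℕ, Tendsto (fun j => ((A ∩ (D j : Set ℕ)).ncard : ℝ) / ((D j).card : ℝ))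
      cofinite (𝓝 0) → A ∈ I)
    (hI2 : I ⊆ Pc D ρ)
    (h : HasCopy I) : ∀ ε : ℝ, 0 < ε →
    ∃ K : ℕ, ∀ N : ℕ, {n | ε ≤ ρ n ∧ N ≤ (D n).card ∧ (D n).card < 2 * N}.ncard ≤ K := by
  classical
  intro ε₀ hε₀
  by_contra hcon
  push Not at hcon
  obtain ⟨φ, hφ⟩ := h
  obtain ⟨k, N, F, hF1, hF2⟩ := fams' D ρ ε₀ (H ε₀ hε₀) hcon
  have hch := fun i => family' D hdis φ (k i) (N i) (F i) (hF1 i).1 (hF1 i).2.2.1 (hF1 i).2.2.2.1
    (fun n hn => ((hF1 i).2.2.2.2 n hn).2)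
  choose B C n₀ hn₀ hBmem hC hBk hCD hCB hlt using hch
  have hFdis : ∀ i j, ∀ n, n ∈ F i → n ∈ F j → i = j := by
    intro i j n hi hj
    rcases lt_trichotomy i j with h | h | h
    · exact absurd hj (Finset.disjoint_left.1 (hF2 i j h) hi)
    · exact h
    · exact absurd hi (Finset.disjoint_left.1 (hF2 j i h) hj)
  have hblk : ∀ x m n, x ∈ D m → x ∈ D n → m = n := by
    intro x m n hm hn
    by_contra hne
    exact Finset.disjoint_left.1 (hdis m n hne) hm hn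
  have hBdis : ∀ i j, i ≠ j → Disjoint (B i) (B j) := by
    intro i j hij
    rw [Finset.disjoint_left]
    intro x hx hx'
    obtain ⟨m, hm, hxm⟩ := hBmem i x hx
    obtain ⟨n, hn, hxn⟩ := hBmem j x hx'
    have := hblk x m n hxm hxn
    subst this
    exact hij (hFdis i j m hm hn)
  have hBI : (⋃ i, (B i : Set ℕ)) ∈ I := by
    apply hI1
    rw [Metric.tendsto_nhds]
    intro ε hε
    obtain ⟨i₀, hi₀⟩ := exists_nat_gt (1 / ε)
    have hTfin : ((((Finset.range i₀).biUnion F : Finset ι)) : Set ι).Finite := Finset.finite_toSet _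
    filter_upwards [hTfin.compl_mem_cofinite] with n hn
    rw [Real.dist_eq, sub_zero, abs_of_nonneg (by positivity)]
    by_cases hex : ∃ i, n ∈ F i
    · obtain ⟨i, hi⟩ := hex
      have hii : i₀ ≤ i := by
        by_contra hlt'
        exact hn (Finset.mem_coe.2 (Finset.mem_biUnion.2 ⟨i, Finset.mem_range.2 (by omega), hi⟩))
      have hsub : (⋃ i, (B i : Set ℕ)) ∩ (D n : Set ℕ) ⊆ ((B i ∩ D n : Finset ℕ) : Set ℕ) := by
        intro x hx
        obtain ⟨j, hj⟩ := Set.mem_iUnion.1 hx.1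
        obtain ⟨m, hm, hxm⟩ := hBmem j x hj
        have h1 := hblk x m n hxm hx.2
        subst h1
        have h2 := hFdis i j m hi hm
        subst h2
        simpa using ⟨hj, hxm⟩
      have h1 := Set.ncard_le_ncard hsub (Finset.finite_toSet _)
      rw [Set.ncard_coe_finset] at h1
      have h2 := hBk i n hi
      have hDpos : 0 < (D n).card := by
        have := ((hF1 i).2.2.2.2 n hi).2
        have := (hF1 i).2.2.1
        have := (hF1 i).1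
        omega
      have hkpos : (0 : ℝ) < (k i : ℝ) := by
        have := (hF1 i).1
        exact_mod_cast (by omega : 0 < k i)
      have h3 : (((⋃ i, (B i : Set ℕ)) ∩ (D n : Set ℕ)).ncard : ℝ) * k i ≤ ((D n).card : ℝ) := by
        have : ((⋃ i, (B i : Set ℕ)) ∩ (D n : Set ℕ)).ncard * k i ≤ (D n).card :=
          (Nat.mul_le_mul_right _ h1).trans h2
        exact_mod_cast this
      have h4 : (i₀ : ℝ) ≤ k i := by exact_mod_cast (hii.trans (hF1 i).2.1)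
      have hDp : (0 : ℝ) < ((D n).card : ℝ) := by exact_mod_cast hDpos
      have h5 : 1 < ε * k i := by
        have : 1 / ε < k i := lt_of_lt_of_le hi₀ h4
        rw [div_lt_iff₀ hε] at this
        linarith
      rw [div_lt_iff₀ hDp]
      by_contra hge
      push Not at hge
      nlinarith [mul_le_mul_of_nonneg_right hge hkpos.le, mul_pos hDp (by linarith : (0:ℝ) < ε * k i - 1)]
    · have hemp : (⋃ i, (B i : Set ℕ)) ∩ (D n : Set ℕ) = ∅ := by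
        ext x
        simp only [Set.mem_inter_iff, Set.mem_iUnion, Set.mem_empty_iff_false, iff_false, not_and]
        rintro ⟨j, hj⟩ hxn
        obtain ⟨m, hm, hxm⟩ := hBmem j x hj
        have h1 := hblk x m n hxm hxn
        subst h1
        exact hex ⟨j, hm⟩
      rw [hemp]; simpa using hε
  have hCI : (φ '' ⋃ i, (C i : Set ℕ)) ∈ (fun A : Set ℕ => φ '' A) '' I :=
    hφ (φ '' ⋃ i, (B i : Set ℕ)) ⟨_, hBI, rfl⟩ _ (fun p => domination φ B C hCB hlt hBdis p)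
  obtain ⟨A, hA, hAC⟩ := hCI
  have hAC' : A = ⋃ i, (C i : Set ℕ) := φ.injective.image_injective hAC
  rw [hAC'] at hA
  have hA2 : Tendsto (fun n => ρ n * ((((⋃ i, (C i : Set ℕ)) ∩ (D n : Set ℕ)).ncard : ℝ) /
      ((D n).card : ℝ))) cofinite (𝓝 0) := hI2 hA
  have hinj : Function.Injective n₀ := by
    intro i j hij
    exact hFdis i j (n₀ i) (hn₀ i) (by rw [hij]; exact hn₀ j)
  have h1 := (hA2.comp hinj.tendsto_cofinite).eventually
    (gt_mem_nhds (by positivity : (0:ℝ) < ε₀ / 2))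
  obtain ⟨i, hi⟩ := h1.exists
  simp only [Function.comp] at hi
  have hsub : (C i : Set ℕ) ⊆ (⋃ i, (C i : Set ℕ)) ∩ (D (n₀ i) : Set ℕ) := fun x hx =>
    ⟨Set.mem_iUnion.2 ⟨i, hx⟩, hC i hx⟩
  have h2 := Set.ncard_le_ncard hsub ((Finset.finite_toSet _).subset Set.inter_subset_right)
  rw [Set.ncard_coe_finset] at h2
  have h3 := hCD i
  have hDpos : 0 < (D (n₀ i)).card := by
    have := ((hF1 i).2.2.2.2 (n₀ i) (hn₀ i)).2
    have := (hF1 i).2.2.1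
    have := (hF1 i).1
    omega
  have hDp : (0 : ℝ) < ((D (n₀ i)).card : ℝ) := by exact_mod_cast hDpos
  have h4 : ((D (n₀ i)).card : ℝ) ≤ 2 * (((⋃ i, (C i : Set ℕ)) ∩ (D (n₀ i) : Set ℕ)).ncard : ℝ) := by
    exact_mod_cast h3.trans (Nat.mul_le_mul_left 2 h2)
  have h5 : (1 : ℝ) / 2 ≤ (((⋃ i, (C i : Set ℕ)) ∩ (D (n₀ i) : Set ℕ)).ncard : ℝ) /
      ((D (n₀ i)).card : ℝ) := by
    rw [le_div_iff₀ hDp]; linarith
  have h6 := ((hF1 i).2.2.2.2 (n₀ i) (hn₀ i)).1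
  have h7 : ε₀ * (1 / 2) ≤ ρ (n₀ i) * ((((⋃ i, (C i : Set ℕ)) ∩ (D (n₀ i) : Set ℕ)).ncard : ℝ) /
      ((D (n₀ i)).card : ℝ)) := mul_le_mul h6 h5 (by norm_num) (hρ0 _)
  linarith

end Run7.h157.EU
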