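import Pool.Agent.Run7.h157.EU.Defs

set_option autoImplicit false

namespace Run7.h157.EU

open Filter Topology

/-- leftmost `t` points -/
lemma leftmost (φ : ℕ ≃ ℕ) (D : Finset ℕ) : ∀ t : ℕ, t ≤ D.card →
    ∃ B ⊆ D, B.card = t ∧ ∀ b ∈ B, ∀ c ∈ D, c ∉ B → φ b < φ c := by
  intro t
  induction t with
  | zero => intro _; exact ⟨∅, by simp, by simp, by simp⟩
  | succ t ih =>
    intro ht
    obtain ⟨B, hBD, hBc, hB⟩ := ih (by omega)
    have hne : (D \ B).Nonempty := by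
      rw [← Finset.card_pos, Finset.card_sdiff_of_subset hBD]; omega
    obtain ⟨x, hx, hmin⟩ := Finset.exists_min_image (D \ B) (fun y => φ y) hne
    rw [Finset.mem_sdiff] at hx
    refine ⟨insert x B, ?_, ?_, ?_⟩
    · intro y hy
      rcases Finset.mem_insert.1 hy with h | h
      · rw [h]; exact hx.1
      · exact hBD h
    · rw [Finset.card_insert_of_notMem hx.2, hBc]
    · intro b hb c hc hcB
      rw [Finset.mem_insert, not_or] at hcB
      rcases Finset.mem_insert.1 hb with h | h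
      · rw [h]
        have := hmin c (Finset.mem_sdiff.2 ⟨hc, hcB.2⟩)
        exact lt_of_le_of_ne this (fun h2 => hcB.1 (φ.injective h2).symm)
      · exact hB b h c hc hcB.2

/-- one family of blocks -/
lemma family (D : ℕ → Finset ℕ) (hdis : ∀ m n, m ≠ n → Disjoint (D m) (D n)) (φ : ℕ ≃ ℕ)
    (k N : ℕ) (F : Finset ℕ) (hk : 2 ≤ k) (hkN : k ≤ N) (hF : 4 * k ≤ F.card)
    (hw : ∀ n ∈ F, N ≤ (D n).card ∧ (D n).card < 2 * N) :
    ∃ B C : Finset ℕ, ∃ n₀ ∈ F, B ⊆ F.biUnion D ∧ C ⊆ D n₀ ∧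
      (∀ n ∈ F, (B ∩ D n).card * k ≤ (D n).card) ∧ (D n₀).card ≤ 2 * C.card ∧
      C.card ≤ B.card ∧ ∀ b ∈ B, ∀ c ∈ C, φ b < φ c := by
  classical
  have hch : ∀ n : ℕ, ∃ B : Finset ℕ, n ∈ F → B ⊆ D n ∧ B.card = N / k ∧
      ∀ b ∈ B, ∀ c ∈ D n, c ∉ B → φ b < φ c := by
    intro n
    by_cases hn : n ∈ F
    · obtain ⟨B, h1, h2, h3⟩ := leftmost φ (D n) (N / k)
        ((Nat.div_le_self N k).trans (hw n hn).1)
      exact ⟨B, fun _ => ⟨h1, h2, h3⟩⟩
    · exact ⟨∅, fun h => absurd h hn⟩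
  choose Bn hBn using hch
  have ht1 : 1 ≤ N / k := (Nat.one_le_div_iff (by omega)).2 hkN
  have ht2 : N / k * k ≤ N := Nat.div_mul_le_self N k
  have ht3 : N < (N / k + 1) * k := by
    have := Nat.lt_div_mul_add (a := N) (b := k) (by omega)
    linarith [this]
  have hFne : F.Nonempty := by rw [← Finset.card_pos]; omega
  obtain ⟨n₀, hn₀, hmax⟩ := Finset.exists_max_image F
    (fun n => (Bn n).sup (fun b => φ b)) hFne
  have hdisB : ∀ m ∈ F, ∀ n ∈ F, m ≠ n → Disjoint (Bn m) (Bn n) := by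
    intro m hm n hn hmn
    exact Finset.disjoint_of_subset_left (hBn m hm).1
      (Finset.disjoint_of_subset_right (hBn n hn).1 (hdis m n hmn))
  have hcardB : (F.biUnion Bn).card = F.card * (N / k) := by
    rw [Finset.card_biUnion hdisB, Finset.sum_congr rfl (fun n hn => (hBn n hn).2.1)]
    simp
  refine ⟨F.biUnion Bn, D n₀ \ Bn n₀, n₀, hn₀, ?_, Finset.sdiff_subset, ?_, ?_, ?_, ?_⟩
  · intro x hx
    obtain ⟨n, hn, hxn⟩ := Finset.mem_biUnion.1 hx
    exact Finset.mem_biUnion.2 ⟨n, hn, (hBn n hn).1 hxn⟩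
  · intro n hn
    have : F.biUnion Bn ∩ D n ⊆ Bn n := by
      intro x hx
      rw [Finset.mem_inter, Finset.mem_biUnion] at hx
      obtain ⟨⟨m, hm, hxm⟩, hxn⟩ := hx
      by_cases hmn : m = n
      · rwa [hmn] at hxm
      · exact absurd hxn (Finset.disjoint_left.1 (hdis m n hmn) ((hBn m hm).1 hxm))
    have h1 := Finset.card_le_card this
    rw [(hBn n hn).2.1] at h1
    have h2 := (hw n hn).1
    calc (F.biUnion Bn ∩ D n).card * k ≤ N / k * k := Nat.mul_le_mul_right k h1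
      _ ≤ N := ht2
      _ ≤ (D n).card := h2
  · rw [Finset.card_sdiff_of_subset (hBn n₀ hn₀).1, (hBn n₀ hn₀).2.1]
    have h2 := (hw n₀ hn₀).1
    have h3 : N / k * 2 ≤ N := (Nat.mul_le_mul_left _ hk).trans ht2
    omega
  · rw [hcardB]
    have h1 : (D n₀ \ Bn n₀).card ≤ (D n₀).card := Finset.card_le_card Finset.sdiff_subset
    have h2 := (hw n₀ hn₀).2
    have h3 : 4 * k * (N / k) ≤ F.card * (N / k) := Nat.mul_le_mul_right _ hF
    have h4 : (N / k + 1) * k ≤ 2 * (N / k) * k := Nat.mul_le_mul_right k (by omega)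
    nlinarith [h3, h4, ht3, h1, h2]
  · intro b hb c hc
    obtain ⟨m, hm, hbm⟩ := Finset.mem_biUnion.1 hb
    rw [Finset.mem_sdiff] at hc
    have h1 : φ b ≤ (Bn m).sup (fun b => φ b) := Finset.le_sup (f := fun b => φ b) hbm
    have h2 := hmax m hm
    have hne : (Bn n₀).Nonempty := by
      rw [← Finset.card_pos, (hBn n₀ hn₀).2.1]; omega
    obtain ⟨x, hx, hxs⟩ := Finset.exists_mem_eq_sup (Bn n₀) hne (fun b => φ b)
    have h3 := (hBn n₀ hn₀).2.2 x hx c hc.1 hc.2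
    have h4 : (Bn n₀).sup (fun b => φ b) = φ x := hxs
    have h5 : (Bn m).sup (fun b => φ b) ≤ (Bn n₀).sup (fun b => φ b) := h2
    omega

end Run7.h157.EU
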