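import Pool.Agent.Run7.h157.EU.Nec

set_option autoImplicit false

namespace Run7.h157.EU

open Filter Topology

lemma far (D : ℕ → Finset ℕ) (hcard : Tendsto (fun n => (D n).card) atTop atTop)
    (hbad : ∀ K : ℕ, ∃ N : ℕ, K < {n | N ≤ (D n).card ∧ (D n).card < 2 * N}.ncard) (L k : ℕ) :
    ∃ N : ℕ, ∃ F : Finset ℕ, L ≤ N ∧ k ≤ F.card ∧ (∀ n ∈ F, L ≤ n) ∧
      ∀ n ∈ F, N ≤ (D n).card ∧ (D n).card < 2 * N := by
  classical
  obtain ⟨n₁, hn₁⟩ := eventually_atTop.1 (hcard.eventually_ge_atTop (2 * L))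
  obtain ⟨N, hN⟩ := hbad (n₁ + L + k)
  obtain ⟨n₂, hn₂⟩ := eventually_atTop.1 (hcard.eventually_ge_atTop (2 * N))
  set W : Set ℕ := {n | N ≤ (D n).card ∧ (D n).card < 2 * N} with hW
  have hWfin : W.Finite := (Set.finite_Iio n₂).subset (by
    intro n hn
    by_contra h
    have h2 : n₂ ≤ n := by simpa using h
    have := hn₂ n h2
    have h3 : (D n).card < 2 * N := hn.2
    omega)
  have hLN : L ≤ N := by
    by_contra h
    have hsub : W ⊆ Set.Iio n₁ := by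
      intro n hn
      by_contra h1
      have h2 : n₁ ≤ n := by simpa using h1
      have := hn₁ n h2
      have h3 : (D n).card < 2 * N := hn.2
      omega
    have h4 := Set.ncard_le_ncard hsub (Set.finite_Iio n₁)
    have h5 : (Set.Iio n₁).ncard = n₁ := by
      rw [← Finset.coe_Iio, Set.ncard_coe_finset]; simp
    omega
  refine ⟨N, hWfin.toFinset.filter (fun n => L ≤ n), hLN, ?_, ?_, ?_⟩
  · have hsub : hWfin.toFinset ⊆ hWfin.toFinset.filter (fun n => L ≤ n) ∪ Finset.range L := by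
      intro n hn
      by_cases h : L ≤ n
      · exact Finset.mem_union_left _ (Finset.mem_filter.2 ⟨hn, h⟩)
      · exact Finset.mem_union_right _ (Finset.mem_range.2 (by omega))
    have h1 := Finset.card_le_card hsub
    have h2 := Finset.card_union_le (hWfin.toFinset.filter (fun n => L ≤ n)) (Finset.range L)
    have h3 := Set.ncard_eq_toFinset_card W hWfin
    rw [Finset.card_range] at h2
    omega
  · intro n hn
    exact (Finset.mem_filter.1 hn).2
  · intro n hn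
    have := (Finset.mem_filter.1 hn).1
    exact (Set.Finite.mem_toFinset hWfin).1 this

lemma fams (D : ℕ → Finset ℕ) (hcard : Tendsto (fun n => (D n).card) atTop atTop)
    (hbad : ∀ K : ℕ, ∃ N : ℕ, K < {n | N ≤ (D n).card ∧ (D n).card < 2 * N}.ncard) :
    ∃ (k N : ℕ → ℕ) (F : ℕ → Finset ℕ), (∀ i, 2 ≤ k i ∧ i ≤ k i ∧ k i ≤ N i ∧
      4 * k i ≤ (F i).card ∧ ∀ n ∈ F i, N i ≤ (D n).card ∧ (D n).card < 2 * N i) ∧
      ∀ i j, i < j → ∀ m ∈ F i, ∀ n ∈ F j, m < n := by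
  classical
  obtain ⟨f, hf1, hf2⟩ := exists_seq_of_forall_finset_exists
    (P := fun x : ℕ × ℕ × Finset ℕ => 2 ≤ x.1 ∧ x.1 ≤ x.2.1 ∧ 4 * x.1 ≤ x.2.2.card ∧
      ∀ n ∈ x.2.2, x.2.1 ≤ (D n).card ∧ (D n).card < 2 * x.2.1)
    (r := fun x y => x.1 < y.1 ∧ ∀ m ∈ x.2.2, ∀ n ∈ y.2.2, m < n) (by
      intro s _
      set k := s.sup (fun x => x.1) + 2 with hk
      set L := k + s.sup (fun x => x.2.2.sup id) + 1 with hL
      obtain ⟨N, F, h1, h2, h3, h4⟩ := far D hcard hbad L (4 * k)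
      refine ⟨(k, N, F), ⟨by show 2 ≤ k; omega, by show k ≤ N; omega, h2, h4⟩, ?_⟩
      intro x hx
      have h5 : x.1 ≤ s.sup (fun x => x.1) := Finset.le_sup (f := fun x : ℕ × ℕ × Finset ℕ => x.1) hx
      refine ⟨by show x.1 < k; omega, ?_⟩
      intro m hm n hn
      have h6 : x.2.2.sup id ≤ s.sup (fun x => x.2.2.sup id) :=
        Finset.le_sup (f := fun x : ℕ × ℕ × Finset ℕ => x.2.2.sup id) hx
      have h7 : m ≤ x.2.2.sup id := Finset.le_sup (f := id) hm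
      have h8 := h3 n hn
      omega)
  refine ⟨fun i => (f i).1, fun i => (f i).2.1, fun i => (f i).2.2, ?_, ?_⟩
  · have hmono : StrictMono (fun i => (f i).1) := fun i j hij => (hf2 i j hij).1
    intro i
    exact ⟨(hf1 i).1, hmono.id_le i, (hf1 i).2.1, (hf1 i).2.2.1, (hf1 i).2.2.2⟩
  · intro i j hij
    exact (hf2 i j hij).2

/-- domination by injection -/
lemma domination (φ : ℕ ≃ ℕ) (B C : ℕ → Finset ℕ) (hcard : ∀ i, (C i).card ≤ (B i).card)
    (hlt : ∀ i, ∀ b ∈ B i, ∀ c ∈ C i, φ b < φ c)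
    (hdis : ∀ i j, i ≠ j → Disjoint (B i) (B j)) (p : ℕ) :
    ((φ '' ⋃ i, (C i : Set ℕ)) ∩ Set.Iio p).ncard ≤ ((φ '' ⋃ i, (B i : Set ℕ)) ∩ Set.Iio p).ncard := by
  classical
  have he : ∀ i, Nonempty (↥(C i) ↪ ↥(B i)) := fun i =>
    Function.Embedding.nonempty_of_card_le (by simpa using hcard i)
  let e := fun i => Classical.choice (he i)
  have hsel : ∀ y : ℕ, ∃ z : ℕ, (∃ i, ∃ h : φ.symm y ∈ C i, z = φ (e i ⟨φ.symm y, h⟩)) ∨
      ¬ ∃ i, φ.symm y ∈ C i := by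
    intro y
    by_cases h : ∃ i, φ.symm y ∈ C i
    · obtain ⟨i, hi⟩ := h
      exact ⟨φ (e i ⟨φ.symm y, hi⟩), Or.inl ⟨i, hi, rfl⟩⟩
    · exact ⟨0, Or.inr h⟩
  choose g hg using hsel
  have hg' : ∀ y ∈ (φ '' ⋃ i, (C i : Set ℕ)) ∩ Set.Iio p,
      ∃ i, ∃ h : φ.symm y ∈ C i, g y = φ (e i ⟨φ.symm y, h⟩) := by
    intro y hy
    rcases hg y with h | h
    · exact h
    · exfalso
      obtain ⟨⟨x, hx, rfl⟩, _⟩ := hy
      obtain ⟨i, hi⟩ := Set.mem_iUnion.1 hx
      exact h ⟨i, by simpa using hi⟩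
  refine Set.ncard_le_ncard_of_injOn g ?_ ?_ ((Set.finite_Iio p).subset Set.inter_subset_right)
  · intro y hy
    obtain ⟨i, h, hgy⟩ := hg' y hy
    have h1 : ((e i ⟨φ.symm y, h⟩ : ↥(B i)) : ℕ) ∈ B i := (e i ⟨φ.symm y, h⟩).2
    refine ⟨?_, ?_⟩
    · rw [hgy]
      exact ⟨_, Set.mem_iUnion.2 ⟨i, h1⟩, rfl⟩
    · have h2 := hlt i _ h1 _ h
      rw [Equiv.apply_symm_apply] at h2
      rw [hgy]
      exact lt_trans h2 hy.2
  · intro y hy y' hy' hyy
    obtain ⟨i, h, hgy⟩ := hg' y hy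
    obtain ⟨j, h', hgy'⟩ := hg' y' hy'
    rw [hgy, hgy'] at hyy
    have h3 := φ.injective hyy
    have h1 : ((e i ⟨φ.symm y, h⟩ : ↥(B i)) : ℕ) ∈ B i := (e i ⟨φ.symm y, h⟩).2
    have h2 : ((e j ⟨φ.symm y', h'⟩ : ↥(B j)) : ℕ) ∈ B j := (e j ⟨φ.symm y', h'⟩).2
    have hij : i = j := by
      by_contra hne
      rw [h3] at h1
      exact Finset.disjoint_left.1 (hdis i j hne) h1 h2
    subst hij
    have h4 := (e i).injective (Subtype.ext h3)
    have h5 : φ.symm y = φ.symm y' := congrArg Subtype.val h4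
    exact φ.symm.injective h5

theorem nec (D : ℕ → Finset ℕ) (hdis : ∀ m n, m ≠ n → Disjoint (D m) (D n))
    (hcard : Tendsto (fun n => (D n).card) atTop atTop) (h : HasCopy (Unif D)) :
    ∃ K : ℕ, ∀ N : ℕ, {n | N ≤ (D n).card ∧ (D n).card < 2 * N}.ncard ≤ K := by
  classical
  by_contra hcon
  push Not at hcon
  obtain ⟨φ, hφ⟩ := h
  obtain ⟨k, N, F, hF1, hF2⟩ := fams D hcard hcon
  have hch := fun i => family D hdis φ (k i) (N i) (F i) (hF1 i).1 (hF1 i).2.2.1 (hF1 i).2.2.2.1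
    (hF1 i).2.2.2.2
  choose B C n₀ hn₀ hB hC hBk hCD hCB hlt using hch
  have hFdis : ∀ i j, ∀ n, n ∈ F i → n ∈ F j → i = j := by
    intro i j n hi hj
    rcases lt_trichotomy i j with h | h | h
    · exact absurd (hF2 i j h n hi n hj) (lt_irrefl n)
    · exact h
    · exact absurd (hF2 j i h n hj n hi) (lt_irrefl n)
  have hblk : ∀ x m n, x ∈ D m → x ∈ D n → m = n := by
    intro x m n hm hn
    by_contra hne
    exact Finset.disjoint_left.1 (hdis m n hne) hm hn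
  have hBmem : ∀ i x, x ∈ B i → ∃ n ∈ F i, x ∈ D n := by
    intro i x hx
    simpa using Finset.mem_biUnion.1 (hB i hx)
  have hBdis : ∀ i j, i ≠ j → Disjoint (B i) (B j) := by
    intro i j hij
    rw [Finset.disjoint_left]
    intro x hx hx'
    obtain ⟨m, hm, hxm⟩ := hBmem i x hx
    obtain ⟨n, hn, hxn⟩ := hBmem j x hx'
    have := hblk x m n hxm hxn
    subst this
    exact hij (hFdis i j m hm hn)
  -- B is in the ideal
  have hBI : (⋃ i, (B i : Set ℕ)) ∈ Unif D := by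
    show Tendsto _ _ _
    rw [Metric.tendsto_atTop]
    intro ε hε
    obtain ⟨i₀, hi₀⟩ := exists_nat_gt (1 / ε)
    set n₁ := ((Finset.range i₀).biUnion F).sup id + 1 with hn₁
    refine ⟨n₁, fun n hn => ?_⟩
    rw [Real.dist_eq, sub_zero, abs_of_nonneg (by positivity)]
    by_cases hex : ∃ i, n ∈ F i
    · obtain ⟨i, hi⟩ := hex
      have hii : i₀ ≤ i := by
        by_contra hlt'
        have h1 : n ∈ (Finset.range i₀).biUnion F :=
          Finset.mem_biUnion.2 ⟨i, Finset.mem_range.2 (by omega), hi⟩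
        have h2 : n ≤ ((Finset.range i₀).biUnion F).sup id := Finset.le_sup (f := id) h1
        omega
      have hsub : (⋃ i, (B i : Set ℕ)) ∩ (D n : Set ℕ) ⊆ ((B i ∩ D n : Finset ℕ) : Set ℕ) := by
        intro x hx
        obtain ⟨j, hj⟩ := Set.mem_iUnion.1 hx.1
        obtain ⟨m, hm, hxm⟩ := hBmem j x hj
        have h1 := hblk x m n hxm hx.2
        subst h1
        have h2 := hFdis i j m hi hm
        subst h2
        simpa using ⟨hj, hxm⟩
      have h1 := Set.ncard_le_ncard hsub (Finset.finite_toSet _)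
      rw [Set.ncard_coe_finset] at h1
      have h2 := hBk i n hi
      have hDpos : 0 < (D n).card := by
        have := (hF1 i).2.2.2.2 n hi
        have := (hF1 i).2.2.1
        have := (hF1 i).1
        omega
      have hkpos : (0 : ℝ) < (k i : ℝ) := by
        have := (hF1 i).1
        exact_mod_cast (by omega : 0 < k i)
      have h3 : (((⋃ i, (B i : Set ℕ)) ∩ (D n : Set ℕ)).ncard : ℝ) * k i ≤ ((D n).card : ℝ) := by
        have : ((⋃ i, (B i : Set ℕ)) ∩ (D n : Set ℕ)).ncard * k i ≤ (D n).card :=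
          (Nat.mul_le_mul_right _ h1).trans h2
        exact_mod_cast this
      have h4 : (i₀ : ℝ) ≤ k i := by exact_mod_cast (hii.trans (hF1 i).2.1)
      have hDp : (0 : ℝ) < ((D n).card : ℝ) := by exact_mod_cast hDpos
      have h5 : 1 < ε * k i := by
        have : 1 / ε < k i := lt_of_lt_of_le hi₀ h4
        rw [div_lt_iff₀ hε] at this
        linarith
      rw [div_lt_iff₀ hDp]
      by_contra hge
      push Not at hge
      nlinarith [mul_le_mul_of_nonneg_right hge hkpos.le, mul_pos hDp (by linarith : (0:ℝ) < ε * k i - 1)]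
    · have hemp : (⋃ i, (B i : Set ℕ)) ∩ (D n : Set ℕ) = ∅ := by
        ext x
        simp only [Set.mem_inter_iff, Set.mem_iUnion, Set.mem_empty_iff_false, iff_false, not_and]
        rintro ⟨j, hj⟩ hxn
        obtain ⟨m, hm, hxm⟩ := hBmem j x hj
        have h1 := hblk x m n hxm hxn
        subst h1
        exact hex ⟨j, hm⟩
      rw [hemp]; simpa using hε
  -- C is dominated by B
  have hCI : (φ '' ⋃ i, (C i : Set ℕ)) ∈ (fun A : Set ℕ => φ '' A) '' (Unif D) :=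
    hφ (φ '' ⋃ i, (B i : Set ℕ)) ⟨_, hBI, rfl⟩ _ (fun p => domination φ B C hCB hlt hBdis p)
  obtain ⟨A, hA, hAC⟩ := hCI
  have hAC' : A = ⋃ i, (C i : Set ℕ) := φ.injective.image_injective hAC
  rw [hAC'] at hA
  have hA2 : Tendsto (fun n => (((⋃ i, (C i : Set ℕ)) ∩ (D n : Set ℕ)).ncard : ℝ) / ((D n).card : ℝ))
      atTop (𝓝 0) := hA
  have hmono : StrictMono n₀ := fun i j hij => hF2 i j hij _ (hn₀ i) _ (hn₀ j)
  have h1 := (hA2.comp hmono.tendsto_atTop).eventually (gt_mem_nhds (by norm_num : (0:ℝ) < 1 / 2))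
  obtain ⟨i, hi⟩ := h1.exists
  simp only [Function.comp] at hi
  have hsub : (C i : Set ℕ) ⊆ (⋃ i, (C i : Set ℕ)) ∩ (D (n₀ i) : Set ℕ) := fun x hx =>
    ⟨Set.mem_iUnion.2 ⟨i, hx⟩, hC i hx⟩
  have h2 := Set.ncard_le_ncard hsub ((Finset.finite_toSet _).subset Set.inter_subset_right)
  rw [Set.ncard_coe_finset] at h2
  have h3 := hCD i
  have hDpos : 0 < (D (n₀ i)).card := by
    have := (hF1 i).2.2.2.2 (n₀ i) (hn₀ i)
    have := (hF1 i).2.2.1
    have := (hF1 i).1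
    omega
  have hDp : (0 : ℝ) < ((D (n₀ i)).card : ℝ) := by exact_mod_cast hDpos
  rw [div_lt_iff₀ hDp] at hi
  have h4 : ((D (n₀ i)).card : ℝ) ≤ 2 * (((⋃ i, (C i : Set ℕ)) ∩ (D (n₀ i) : Set ℕ)).ncard : ℝ) := by
    exact_mod_cast h3.trans (Nat.mul_le_mul_left 2 h2)
  linarith

end Run7.h157.EU
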